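import Mathlib

/-!
# Krull dimension of affine domains
-/

set_option autoImplicit false

namespace Pool.Agent.IsoRep

open Cardinal

lemma ringKrullDim_eq_of_isIntegral {R S : Type*} [CommRing R] [CommRing S] [Algebra R S]
    [Algebra.IsIntegral R S] (hinj : Function.Injective (algebraMap R S)) :
    ringKrullDim R = ringKrullDim S := by
  apply le_antisymm
  · have : Algebra.HasGoingUp R S := inferInstance
    unfold ringKrullDim Order.krullDim
    refine iSup_le fun l => ?_
    obtain ⟨P, hP, hPl⟩ : ∃ P : Ideal S, P.IsPrime ∧ P.LiesOver (RelSeries.head l).asIdeal := by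
      obtain ⟨Q, _, hQ, hQ'⟩ := Ideal.exists_ideal_over_prime_of_isIntegral
        (RelSeries.head l).asIdeal (⊥ : Ideal S) (by
          rw [Ideal.comap_bot_of_injective _ hinj]; exact bot_le)
      exact ⟨Q, hQ, ⟨hQ'.symm⟩⟩
    obtain ⟨L, hL, _⟩ := Ideal.exists_ltSeries_of_hasGoingUp l P
    rw [← hL]
    exact le_iSup (fun p : LTSeries (PrimeSpectrum S) => (p.length : WithBot ℕ∞)) L
  · refine Order.krullDim_le_of_strictMono
      (fun p : PrimeSpectrum S => PrimeSpectrum.comap (algebraMap R S) p) ?_
    intro p q hpq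
    exact Ideal.IsIntegral.comap_lt_comap (R := R) (I := p.asIdeal) (J := q.asIdeal) hpq

universe u v w

lemma ringKrullDim_of_isTranscendenceBasis {K : Type u} {A : Type v} [Field K] [CommRing A]
    [IsDomain A] [Algebra K A] [Algebra.FiniteType K A] {D : Type w} [Finite D] (x : D → A)
    (hx : IsTranscendenceBasis K x) : ringKrullDim A = Nat.card D := by
  obtain ⟨s, g, hg, hfin⟩ := exists_finite_inj_algHom_of_fg K A
  let _ := g.toRingHom.toAlgebra
  have hint : Algebra.IsIntegral (MvPolynomial (Fin s) K) A := ⟨hfin.to_isIntegral⟩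
  have hinj : Function.Injective (algebraMap (MvPolynomial (Fin s) K) A) := hg
  have htower : IsScalarTower K (MvPolynomial (Fin s) K) A :=
    IsScalarTower.of_algebraMap_eq fun r => (g.commutes r).symm
  rw [← ringKrullDim_eq_of_isIntegral hinj, MvPolynomial.ringKrullDim_of_isNoetherianRing,
    ringKrullDim_eq_zero_of_field, zero_add]
  have hfaith : FaithfulSMul (MvPolynomial (Fin s) K) A :=
    (faithfulSMul_iff_algebraMap_injective _ _).mpr hinj
  have hy := (IsTranscendenceBasis.mvPolynomial (Fin s) K).algebraMap_comp (A := A)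
  have h1 := hx.lift_cardinalMk_eq hy
  have h2 : Nat.card D = Nat.card (Fin s) := by
    have h3 := congrArg Cardinal.toNat h1
    simpa [Nat.card] using h3
  rw [h2]

end Pool.Agent.IsoRep
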