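import Mathlib

/-!
# Zariski tangent spaces at rational points
-/

set_option autoImplicit false

namespace Pool.Agent.IsoRep

/-- The Zariski tangent space of `Spec A` at a `K`-rational point `x : A → K`: the space of
`K`-linear point derivations `δ : A → K`, `δ (f g) = f(x) δ(g) + g(x) δ(f)`. -/
def tangentSpace {K A : Type*} [Field K] [CommRing A] [Algebra K A] (x : A →ₐ[K] K) :
    Submodule K (A →ₗ[K] K) where
  carrier := {δ | ∀ f g : A, δ (f * g) = x f * δ g + x g * δ f}
  add_mem' := by
    intro δ δ' h h' f g
    simp only [LinearMap.add_apply, h f g, h' f g]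
    ring
  zero_mem' := by intro f g; simp
  smul_mem' := by
    intro c δ h f g
    simp only [LinearMap.smul_apply, smul_eq_mul, h f g]
    ring

section

variable {K A : Type*} [Field K] [CommRing A] [Algebra K A] {x : A →ₐ[K] K}

lemma mem_tangentSpace {δ : A →ₗ[K] K} :
    δ ∈ tangentSpace x ↔ ∀ f g : A, δ (f * g) = x f * δ g + x g * δ f := Iff.rfl

lemma tangent_one {δ : A →ₗ[K] K} (h : δ ∈ tangentSpace x) : δ 1 = 0 := by
  have := h 1 1
  simp only [mul_one, map_one, one_mul] at this
  linear_combination -this

lemma tangent_algebraMap {δ : A →ₗ[K] K} (h : δ ∈ tangentSpace x) (a : K) :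
    δ (algebraMap K A a) = 0 := by
  rw [Algebra.algebraMap_eq_smul_one, map_smul, tangent_one h, smul_zero]

/-- Point derivations vanish on the square of an ideal consisting of functions vanishing at the
point. -/
lemma tangent_sq {δ : A →ₗ[K] K} (h : δ ∈ tangentSpace x) (I : Ideal A)
    (hI : ∀ f ∈ I, x f = 0) (f : A) (hf : f ∈ I ^ 2) : δ f = 0 := by
  rw [pow_two] at hf
  refine Submodule.mul_induction_on hf ?_ ?_
  · intro a ha b hb
    rw [h a b, hI a ha, hI b hb]; ring
  · intro a b ha hb
    rw [map_add, ha, hb, add_zero]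

/-- Pull back of point derivations. -/
lemma tangent_comp {B : Type*} [CommRing B] [Algebra K B] (φ : B →ₐ[K] A) {δ : A →ₗ[K] K}
    (h : δ ∈ tangentSpace x) : δ.comp φ.toLinearMap ∈ tangentSpace (x.comp φ) := by
  intro f g
  simp only [LinearMap.comp_apply, AlgHom.toLinearMap_apply, map_mul, h (φ f) (φ g),
    AlgHom.comp_apply]

end

/-- A point derivation on a polynomial ring vanishing on the variables is zero. -/
lemma tangent_mvPolynomial {K τ : Type*} [Field K] {x : MvPolynomial τ K →ₐ[K] K}
    {δ : MvPolynomial τ K →ₗ[K] K} (h : δ ∈ tangentSpace x)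
    (h0 : ∀ s, δ (MvPolynomial.X s) = 0) (p : MvPolynomial τ K) : δ p = 0 := by
  induction p using MvPolynomial.induction_on with
  | C a => exact tangent_algebraMap h a
  | add p q hp hq => rw [map_add, hp, hq, add_zero]
  | mul_X p n hp => rw [h, h0, hp]; ring

end Pool.Agent.IsoRep
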