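import Mathlib
import Pool.Agent.IsoRep.Tangent
import Pool.Agent.IsoRep.Dim

/-!
# Quotients by finite groups acting freely at a point

If a finite group `N` acts on an affine `K`-algebra `A`, and the stabilizer in `N` of a rational
point `x` is trivial, then `A^N → A` induces an isomorphism of tangent spaces at `x`.
-/

set_option autoImplicit false
set_option linter.unusedSectionVars false

namespace Pool.Agent.IsoRep

section

variable {K A N : Type*} [Field K] [CommRing A] [Algebra K A] [Group N] [Fintype N]
  [MulSemiringAction N A] [SMulCommClass N K A]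

/-- The trace (sum over the orbit) with values in the invariants. -/
noncomputable def tr (K N : Type*) {A : Type*} [Field K] [CommRing A] [Algebra K A] [Group N]
    [Fintype N] [MulSemiringAction N A] [SMulCommClass N K A] :
    A →ₗ[K] FixedPoints.subalgebra K A N where
  toFun f := ⟨∑ n : N, n • f, fun m => by
    rw [Finset.smul_sum]
    exact Fintype.sum_bijective (fun n => m * n) (Group.mulLeft_bijective m) _ _
      (fun n => (mul_smul m n f).symm)⟩
  map_add' f g := by
    apply Subtype.ext
    change ∑ n : N, n • (f + g) = (∑ n : N, n • f) + ∑ n : N, n • g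
    rw [← Finset.sum_add_distrib]
    exact Finset.sum_congr rfl fun n _ => smul_add n f g
  map_smul' r f := by
    apply Subtype.ext
    change ∑ n : N, n • (r • f) = r • ∑ n : N, n • f
    rw [Finset.smul_sum]
    exact Finset.sum_congr rfl fun n _ => smul_comm n r f

lemma tr_coe (f : A) : ((tr K N f : FixedPoints.subalgebra K A N) : A) = ∑ n : N, n • f := rfl

lemma smul_coe (b : FixedPoints.subalgebra K A N) (n : N) : n • (b : A) = b := b.2 n

lemma tr_mul (b : FixedPoints.subalgebra K A N) (f : A) :
    tr K N ((b : A) * f) = b * tr K N f := by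
  apply Subtype.ext
  change ∑ n : N, n • ((b : A) * f) = (b : A) * ∑ n : N, n • f
  rw [Finset.mul_sum]
  refine Finset.sum_congr rfl fun n _ => ?_
  rw [smul_mul', smul_coe]

/-- The functions vanishing at `x`. -/
abbrev mx (x : A →ₐ[K] K) : Ideal A := RingHom.ker x

lemma mem_mx {x : A →ₐ[K] K} {f : A} : f ∈ mx x ↔ x f = 0 := Iff.rfl

lemma mx_isMaximal (x : A →ₐ[K] K) : (mx x).IsMaximal :=
  RingHom.ker_isMaximal_of_surjective x (fun a => ⟨algebraMap K A a, x.commutes a⟩)

/-- The restriction of `x` to the invariants. -/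
abbrev resPt (N : Type*) [Group N] [MulSemiringAction N A] [SMulCommClass N K A]
    (x : A →ₐ[K] K) : FixedPoints.subalgebra K A N →ₐ[K] K :=
  x.comp (FixedPoints.subalgebra K A N).val

/-- The hypothesis that `N` acts freely at `x`. -/
def FreeAt (N : Type*) [Group N] [MulSemiringAction N A] (x : A →ₐ[K] K) : Prop :=
  ∀ n : N, n ≠ 1 → ∃ f : A, x (n • f) ≠ x f

variable {x : A →ₐ[K] K}

lemma exists_sep (hx : FreeAt N x) : ∃ a : A, x a = 1 ∧ ∀ n : N, n ≠ 1 → x (n • a) = 0 := by
  classical
  have h1 : ∀ n : N, ∃ a : A, x a = 1 ∧ (n ≠ 1 → x (n • a) = 0) := by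
    intro n
    by_cases hn : n = 1
    · exact ⟨1, map_one x, fun h => absurd hn h⟩
    · obtain ⟨f, hf⟩ := hx n hn
      have hne : x f - x (n • f) ≠ 0 := sub_ne_zero.mpr (Ne.symm hf)
      refine ⟨algebraMap K A (x f - x (n • f))⁻¹ * (f - algebraMap K A (x (n • f))), ?_, ?_⟩
      · rw [map_mul, map_sub, AlgHom.commutes, AlgHom.commutes]
        exact inv_mul_cancel₀ hne
      · intro _
        rw [smul_mul', smul_sub, smul_algebraMap, smul_algebraMap, map_mul, map_sub,
          AlgHom.commutes, AlgHom.commutes]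
        simp
  choose a ha ha' using h1
  refine ⟨∏ n : N, a n, ?_, ?_⟩
  · rw [map_prod]
    exact Finset.prod_eq_one fun n _ => ha n
  · intro n hn
    rw [Finset.smul_prod', map_prod]
    exact Finset.prod_eq_zero (Finset.mem_univ n) (ha' n hn)

/-- A bump function at `x`. -/
lemma exists_bump (hx : FreeAt N x) :
    ∃ e : A, 1 - e ∈ mx x ^ 2 ∧ ∀ n : N, n ≠ 1 → n • e ∈ mx x ^ 2 := by
  obtain ⟨a, ha, ha'⟩ := exists_sep hx
  refine ⟨a ^ 2 * (2 - a ^ 2), ?_, ?_⟩
  · have : 1 - a ^ 2 * (2 - a ^ 2) = (1 - a ^ 2) ^ 2 := by ring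
    rw [this]
    refine Ideal.pow_mem_pow ?_ 2
    rw [mem_mx, map_sub, map_one, map_pow, ha]
    ring
  · intro n hn
    rw [smul_mul', smul_pow']
    refine Ideal.mul_mem_right _ _ (Ideal.pow_mem_pow ?_ 2)
    rw [mem_mx]
    exact ha' n hn

/-- For a bump function `e`, `tr (e f) ≡ f` to second order at `x`. -/
lemma tr_bump {e : A} (he : 1 - e ∈ mx x ^ 2) (he' : ∀ n : N, n ≠ 1 → n • e ∈ mx x ^ 2)
    (f : A) : f - (tr K N (e * f) : A) ∈ mx x ^ 2 := by
  classical
  rw [tr_coe, ← Finset.add_sum_erase Finset.univ _ (Finset.mem_univ (1 : N)), one_smul]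
  have h1 : f - (e * f + ∑ n ∈ Finset.univ.erase (1 : N), n • (e * f))
      = (1 - e) * f - ∑ n ∈ Finset.univ.erase (1 : N), n • (e * f) := by ring
  rw [h1]
  refine sub_mem (Ideal.mul_mem_right _ _ he) (sum_mem fun n hn => ?_)
  rw [smul_mul']
  exact Ideal.mul_mem_right _ _ (he' n (Finset.ne_of_mem_erase hn))

/-- The extension of a power of an ideal of the invariants, intersected with the invariants. -/
lemma mem_of_mem_map [CharZero K] (I : Ideal (FixedPoints.subalgebra K A N))
    (b : FixedPoints.subalgebra K A N)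
    (hb : (b : A) ∈ I.map (algebraMap (FixedPoints.subalgebra K A N) A)) : b ∈ I := by
  have h1 : ∀ f ∈ I.map (algebraMap (FixedPoints.subalgebra K A N) A), tr K N f ∈ I := by
    intro f hf
    rw [Ideal.map] at hf
    induction hf using Submodule.span_induction with
    | mem f hf =>
      obtain ⟨b', hb', rfl⟩ := hf
      have : tr K N (algebraMap (FixedPoints.subalgebra K A N) A b') = b' * tr K N (1 : A) := by
        rw [← tr_mul, mul_one]; rfl
      rw [this]
      exact Ideal.mul_mem_right _ _ hb'
    | zero => rw [map_zero]; exact zero_mem _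
    | add f g _ _ hf hg => rw [map_add]; exact add_mem hf hg
    | smul a f hf ih =>
      -- write `f` again as an element of the span
      rw [smul_eq_mul]
      have hf' : f ∈ Submodule.span A
          (algebraMap (FixedPoints.subalgebra K A N) A '' (I : Set _)) := hf
      clear ih hf
      revert a
      induction hf' using Submodule.span_induction with
      | mem f hf =>
        intro a
        obtain ⟨b', hb', rfl⟩ := hf
        have : tr K N (a * algebraMap (FixedPoints.subalgebra K A N) A b') = b' * tr K N a := by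
          rw [← tr_mul, mul_comm]; rfl
        rw [this]
        exact Ideal.mul_mem_right _ _ hb'
      | zero => intro a; rw [mul_zero, map_zero]; exact zero_mem _
      | add f g _ _ hf hg => intro a; rw [mul_add, map_add]; exact add_mem (hf a) (hg a)
      | smul a' f _ ih => intro a; rw [smul_eq_mul, ← mul_assoc]; exact ih (a * a')
  have h2 := h1 _ hb
  have h3 : tr K N (b : A) = (Fintype.card N : K) • b := by
    apply Subtype.ext
    rw [tr_coe]
    simp only [smul_coe, Finset.sum_const, Finset.card_univ]
    change _ = (Fintype.card N : K) • (b : A)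
    rw [Nat.cast_smul_eq_nsmul]
  rw [h3] at h2
  have h4 : (Fintype.card N : K) ≠ 0 := Nat.cast_ne_zero.mpr Fintype.card_ne_zero
  have h5 : b = algebraMap K (FixedPoints.subalgebra K A N) (Fintype.card N : K)⁻¹
      * ((Fintype.card N : K) • b) := by
    rw [← Algebra.smul_def, smul_smul, inv_mul_cancel₀ h4, one_smul]
  rw [h5]
  exact Ideal.mul_mem_left _ _ h2

/-- Invariant functions vanishing to second order at `x` lie in the square of the maximal ideal of
the invariants. -/
theorem mem_sq_of_mem_sq [CharZero K] [IsNoetherianRing A] (hx : FreeAt N x)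
    (b : FixedPoints.subalgebra K A N) (hb : (b : A) ∈ mx x ^ 2) : b ∈ mx (resPt N x) ^ 2 := by
  classical
  apply mem_of_mem_map
  set n := mx (resPt N x) with hn
  set nA := n.map (algebraMap (FixedPoints.subalgebra K A N) A) with hnA
  have hmax := mx_isMaximal x
  have hinv : Algebra.IsInvariant (FixedPoints.subalgebra K A N) A N := ⟨fun a ha => ⟨⟨a, ha⟩, rfl⟩⟩
  obtain ⟨e, he, he'⟩ := exists_bump hx
  -- Step 1: local generation
  have hle : mx x ≤ nA ⊔ mx x • mx x := by
    intro f hf
    have h1 := tr_bump he he' f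
    have h2 : (tr K N (e * f) : A) ∈ nA := by
      have h3 : tr K N (e * f) ∈ n := by
        rw [hn, mem_mx]
        change x (tr K N (e * f) : A) = 0
        have h4 : x (f - (tr K N (e * f) : A)) = 0 :=
          Ideal.pow_le_self two_ne_zero h1
        rw [map_sub, sub_eq_zero] at h4
        rw [← h4]
        exact hf
      exact Ideal.mem_map_of_mem _ h3
    have h5 : f = (tr K N (e * f) : A) + (f - (tr K N (e * f) : A)) := by ring
    rw [h5]
    refine Submodule.add_mem_sup h2 ?_
    rw [smul_eq_mul, ← pow_two]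
    exact h1
  obtain ⟨r, hr, hr'⟩ := Submodule.exists_sub_one_mem_and_smul_le_of_fg_of_le_sup
    (I := mx x) (N := nA) (N' := mx x) (P := mx x) (IsNoetherian.noetherian _) le_rfl hle
  have hxr : x r = 1 := by
    have : x (r - 1) = 0 := hr
    rw [map_sub, map_one, sub_eq_zero] at this
    exact this
  have hrmem : ∀ f ∈ mx x, r * f ∈ nA := fun f hf => hr' ⟨f, hf, rfl⟩
  have hrsq : ∀ f ∈ mx x ^ 2, r ^ 2 * f ∈ nA ^ 2 := by
    intro f hf
    rw [pow_two (mx x)] at hf
    refine Submodule.mul_induction_on hf ?_ ?_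
    · intro a ha c hc
      have : r ^ 2 * (a * c) = (r * a) * (r * c) := by ring
      rw [this, pow_two]
      exact Ideal.mul_mem_mul (hrmem a ha) (hrmem c hc)
    · intro a c ha hc
      rw [mul_add]
      exact add_mem ha hc
  -- Step 2: globalisation
  have hmap : (n ^ 2).map (algebraMap (FixedPoints.subalgebra K A N) A) = nA ^ 2 := by rw [Ideal.map_pow]
  rw [hmap]
  let 𝔞 : Ideal A :=
    { carrier := {a | a * (b : A) ∈ nA ^ 2}
      add_mem' := by
        intro a c ha hc
        change (a + c) * (b : A) ∈ nA ^ 2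
        rw [add_mul]; exact add_mem ha hc
      zero_mem' := by
        change (0 : A) * (b : A) ∈ nA ^ 2
        rw [zero_mul]; exact zero_mem _
      smul_mem' := by
        intro a c hc
        change (a * c) * (b : A) ∈ nA ^ 2
        rw [mul_assoc]; exact Ideal.mul_mem_left _ _ hc }
  have h𝔞 : ∀ a, a ∈ 𝔞 ↔ a * (b : A) ∈ nA ^ 2 := fun a => Iff.rfl
  by_contra hcon
  have hne : 𝔞 ≠ ⊤ := by
    intro h
    apply hcon
    have : (1 : A) ∈ 𝔞 := by rw [h]; trivial
    rw [h𝔞, one_mul] at this
    exact this
  obtain ⟨M, hM, h𝔞M⟩ := Ideal.exists_le_maximal 𝔞 hne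
  by_cases hnM : nA ≤ M
  · -- `M` lies over `n`
    have h1 : M.under (FixedPoints.subalgebra K A N) = (mx x).under (FixedPoints.subalgebra K A N) := by
      have hnle : n ≤ M.under (FixedPoints.subalgebra K A N) := by
        intro y hy
        rw [Ideal.mem_under]
        exact hnM (Ideal.mem_map_of_mem _ hy)
      have hnmax : n.IsMaximal := mx_isMaximal (resPt N x)
      have hMne : M.under (FixedPoints.subalgebra K A N) ≠ ⊤ := by
        intro h
        have h2 : (1 : FixedPoints.subalgebra K A N) ∈ M.under (FixedPoints.subalgebra K A N) := by rw [h]; trivial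
        rw [Ideal.mem_under, map_one] at h2
        exact hM.ne_top ((Ideal.eq_top_iff_one _).mpr h2)
      have h3 : n = M.under (FixedPoints.subalgebra K A N) := hnmax.eq_of_le hMne hnle
      rw [← h3]
      ext y
      rw [Ideal.mem_under]
      rfl
    have hMp := hM.isPrime
    have hxp := hmax.isPrime
    obtain ⟨g, hg⟩ := Algebra.IsInvariant.exists_smul_of_under_eq (FixedPoints.subalgebra K A N) A N M (mx x) h1
    -- translate `r ^ 2`
    have h4 : r ^ 2 ∈ 𝔞 := by
      rw [h𝔞]
      exact hrsq _ hb
    have hnAinv : ∀ g : N, ∀ f ∈ nA ^ 2, g • f ∈ nA ^ 2 := by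
      intro g f hf
      rw [← hmap] at hf ⊢
      rw [Ideal.map] at hf
      induction hf using Submodule.span_induction with
      | mem f hf =>
        obtain ⟨b', hb', rfl⟩ := hf
        have : g • (algebraMap (FixedPoints.subalgebra K A N) A b') = algebraMap (FixedPoints.subalgebra K A N) A b' := b'.2 g
        rw [this]
        exact Ideal.mem_map_of_mem _ hb'
      | zero => rw [smul_zero]; exact zero_mem _
      | add f f' _ _ hf hf' => rw [smul_add]; exact add_mem hf hf'
      | smul a f _ hf =>
        rw [smul_eq_mul, smul_mul']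
        exact Ideal.mul_mem_left _ _ hf
    have h5 : g⁻¹ • (r ^ 2) ∈ 𝔞 := by
      rw [h𝔞]
      have h6 := hnAinv g⁻¹ _ ((h𝔞 _).mp h4)
      rw [smul_mul', smul_coe] at h6
      exact h6
    have h7 : g⁻¹ • (r ^ 2) ∈ M := h𝔞M h5
    have h8 : r ^ 2 ∈ mx x := by
      rw [hg]
      exact Ideal.mem_pointwise_smul_iff_inv_smul_mem.mpr h7
    rw [mem_mx, map_pow, hxr, one_pow] at h8
    exact one_ne_zero h8
  · obtain ⟨y, hy, hyM⟩ := SetLike.not_le_iff_exists.mp hnM
    have hMp := hM.isPrime
    have h1 : y * y ∈ 𝔞 := by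
      rw [h𝔞]
      refine Ideal.mul_mem_right _ _ ?_
      rw [pow_two]
      exact Ideal.mul_mem_mul hy hy
    rcases hMp.mem_or_mem (h𝔞M h1) with h | h
    · exact hyM h
    · exact hyM h

/-- Restriction of tangent vectors to the invariants. -/
noncomputable def resTangent (N : Type*) [Group N] [MulSemiringAction N A]
    [SMulCommClass N K A] (x : A →ₐ[K] K) :
    tangentSpace x →ₗ[K] tangentSpace (resPt N x) :=
  LinearMap.codRestrict _
    ((LinearMap.lcomp K K (FixedPoints.subalgebra K A N).val.toLinearMap).comp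
      (tangentSpace x).subtype)
    (fun δ => tangent_comp _ δ.2)

lemma resTangent_apply (δ : tangentSpace x) (b : FixedPoints.subalgebra K A N) :
    (resTangent N x δ : FixedPoints.subalgebra K A N →ₗ[K] K) b
      = (δ : A →ₗ[K] K) (b : A) := rfl

lemma resTangent_injective (hx : FreeAt N x) : Function.Injective (resTangent N x) := by
  rw [injective_iff_map_eq_zero]
  intro δ hδ
  obtain ⟨e, he, he'⟩ := exists_bump hx
  apply Subtype.ext
  refine LinearMap.ext fun f => ?_
  have h1 : (δ : A →ₗ[K] K) (tr K N (e * f) : A) = 0 := by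
    rw [← resTangent_apply, hδ]; rfl
  have h2 := tangent_sq δ.2 (mx x) (fun f hf => hf) _ (tr_bump he he' f)
  rw [map_sub, h1, sub_zero] at h2
  exact h2

lemma resTangent_surjective [CharZero K] [IsNoetherianRing A] (hx : FreeAt N x) :
    Function.Surjective (resTangent N x) := by
  rintro ⟨δ, hδ⟩
  obtain ⟨e, he, he'⟩ := exists_bump hx
  -- vanishing on invariants of second order
  have hsq : ∀ b : FixedPoints.subalgebra K A N, (b : A) ∈ mx x ^ 2 → δ b = 0 :=
    fun b hb => tangent_sq hδ (mx (resPt N x)) (fun f hf => hf) _ (mem_sq_of_mem_sq hx b hb)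
  let Δ : A →ₗ[K] K := δ.comp ((tr K N).comp (LinearMap.mulLeft K e))
  have hΔ : ∀ f, Δ f = δ (tr K N (e * f)) := fun f => rfl
  have hΔsq : ∀ f ∈ mx x ^ 2, Δ f = 0 := by
    intro f hf
    rw [hΔ]
    apply hsq
    have h1 := tr_bump (K := K) (N := N) he he' f
    have h2 : (tr K N (e * f) : A) = f - (f - (tr K N (e * f) : A)) := by ring
    rw [h2]
    exact sub_mem hf h1
  have hΔ1 : Δ 1 = 0 := by
    rw [hΔ]
    have h1 : δ (tr K N (e * 1) - 1) = 0 := by
      apply hsq
      have h2 := tr_bump (K := K) (N := N) he he' (1 : A)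
      have h3 : ((tr K N (e * 1) - 1 : FixedPoints.subalgebra K A N) : A)
          = - (1 - (tr K N (e * 1) : A)) := by
        push_cast
        ring
      rw [h3]
      exact neg_mem h2
    rw [map_sub, tangent_one hδ, sub_zero] at h1
    exact h1
  have hΔC : ∀ r : K, Δ (algebraMap K A r) = 0 := by
    intro r
    rw [Algebra.algebraMap_eq_smul_one, map_smul, hΔ1, smul_zero]
  have hΔmem : Δ ∈ tangentSpace x := by
    intro f g
    have h1 : f * g = algebraMap K A (x f * x g)
        + x f • (g - algebraMap K A (x g)) + x g • (f - algebraMap K A (x f))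
        + (f - algebraMap K A (x f)) * (g - algebraMap K A (x g)) := by
      simp only [Algebra.smul_def, map_mul]
      ring
    have h2 : Δ ((f - algebraMap K A (x f)) * (g - algebraMap K A (x g))) = 0 := by
      apply hΔsq
      rw [pow_two]
      refine Ideal.mul_mem_mul ?_ ?_
      · rw [mem_mx, map_sub, AlgHom.commutes]; simp
      · rw [mem_mx, map_sub, AlgHom.commutes]; simp
    rw [h1, map_add, map_add, map_add, map_smul, map_smul, map_sub, map_sub, hΔC, hΔC, hΔC, h2]
    simp
  refine ⟨⟨Δ, hΔmem⟩, ?_⟩
  apply Subtype.ext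
  refine LinearMap.ext fun b => ?_
  rw [resTangent_apply]
  change Δ (b : A) = δ b
  rw [hΔ]
  have h1 : δ (b - tr K N (e * (b : A))) = 0 := by
    apply hsq
    exact tr_bump he he' (b : A)
  rw [map_sub, sub_eq_zero] at h1
  exact h1.symm

/-- The tangent space of the quotient at a point where `N` acts freely. -/
noncomputable def resTangentEquiv [CharZero K] [IsNoetherianRing A] (hx : FreeAt N x) :
    tangentSpace x ≃ₗ[K] tangentSpace (resPt N x) :=
  LinearEquiv.ofBijective (resTangent N x) ⟨resTangent_injective hx, resTangent_surjective hx⟩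

end

end Pool.Agent.IsoRep
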