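import Mathlib
import Pool.Agent.IsoRep.Quot

/-!
# The ring of invariants: finiteness, dimension, residual action
-/

set_option autoImplicit false
set_option linter.unusedSectionVars false

namespace Pool.Agent.IsoRep

section

variable {K A N : Type*} [Field K] [CommRing A] [Algebra K A] [Group N] [Fintype N]
  [MulSemiringAction N A] [SMulCommClass N K A]

variable (K A N) in
lemma invariants_isInvariant : Algebra.IsInvariant (FixedPoints.subalgebra K A N) A N :=
  ⟨fun a ha => ⟨⟨a, ha⟩, rfl⟩⟩

variable (K A N) in
lemma invariants_isIntegral : Algebra.IsIntegral (FixedPoints.subalgebra K A N) A := by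
  have := invariants_isInvariant K A N
  exact Algebra.IsInvariant.isIntegral (FixedPoints.subalgebra K A N) A N

variable (K A N) in
lemma invariants_injective :
    Function.Injective (algebraMap (FixedPoints.subalgebra K A N) A) := Subtype.val_injective

variable (K A N) in
lemma invariants_finiteType [Algebra.FiniteType K A] :
    Algebra.FiniteType K (FixedPoints.subalgebra K A N) := by
  have := invariants_isIntegral K A N
  have hfin : Module.Finite (FixedPoints.subalgebra K A N) A := by
    have h1 : Algebra.FiniteType (FixedPoints.subalgebra K A N) A :=
      Algebra.FiniteType.of_restrictScalars_finiteType K _ _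
    exact Algebra.IsIntegral.finite
  exact ⟨fg_of_fg_of_fg K (FixedPoints.subalgebra K A N) A Algebra.FiniteType.out
    Module.Finite.fg_top (invariants_injective K A N)⟩

variable (K A N) in
lemma invariants_ringKrullDim :
    ringKrullDim (FixedPoints.subalgebra K A N) = ringKrullDim A := by
  have := invariants_isIntegral K A N
  exact ringKrullDim_eq_of_isIntegral (invariants_injective K A N)

end

end Pool.Agent.IsoRep
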