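import Mathlib

/-!
# Counting transcendence degrees
-/

set_option autoImplicit false

namespace Pool.Agent.IsoRep

open Cardinal

universe u v w x

lemma isAlgebraic_of_adjoin_eq {k : Type u} {L : Type v} [Field k] [Field L] [Algebra k L]
    {τ : Type w} (z : τ → L) (e : L) (he : e ∈ IntermediateField.adjoin k (Set.range z)) :
    IsAlgebraic (Algebra.adjoin k (Set.range z)) e := by
  rw [IntermediateField.mem_adjoin_range_iff] at he
  obtain ⟨r, s, rfl⟩ := he
  have h1 : ∀ p : MvPolynomial τ k,
      IsAlgebraic (Algebra.adjoin k (Set.range z)) (MvPolynomial.aeval z p) := by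
    intro p
    have hp : MvPolynomial.aeval z p ∈ Algebra.adjoin k (Set.range z) := by
      rw [Algebra.adjoin_range_eq_range_aeval]
      exact ⟨p, rfl⟩
    exact isAlgebraic_algebraMap (⟨_, hp⟩ : Algebra.adjoin k (Set.range z))
  rw [div_eq_mul_inv]
  exact (h1 r).mul (IsAlgebraic.inv_iff.mpr (h1 s))

/-- If the field generated by the finite family `z` contains an algebraically independent family
`b` of the same cardinality, then `z` is algebraically independent, and every `z s` is algebraic
over `b`. -/
lemma count {k : Type u} {L : Type v} [Field k] [Field L] [Algebra k L] {τ : Type w} {B : Type x}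
    [Finite τ] [Finite B] (hcard : Nat.card τ = Nat.card B) (z : τ → L) (b : B → L)
    (hb : AlgebraicIndependent k b)
    (hmem : ∀ i, b i ∈ IntermediateField.adjoin k (Set.range z)) :
    AlgebraicIndependent k z ∧ ∀ s, IsAlgebraic (Algebra.adjoin k (Set.range b)) (z s) := by
  set E := IntermediateField.adjoin k (Set.range z) with hE
  have hzmem : ∀ s, z s ∈ E := fun s => IntermediateField.subset_adjoin k _ ⟨s, rfl⟩
  let zE : τ → E := fun s => ⟨z s, hzmem s⟩
  let bE : B → E := fun s => ⟨b s, hmem s⟩
  have hbE : AlgebraicIndependent k bE := by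
    have : b = E.val ∘ bE := rfl
    rw [this] at hb
    exact hb.of_comp E.val
  have htr : ((Nat.card B : ℕ) : Cardinal.{v}) ≤ Algebra.trdeg k E := by
    have h1 : lift.{v} #B ≤ lift.{x} (Algebra.trdeg k E) := hbE.lift_cardinalMk_le_trdeg
    have h2 : #B = ((Nat.card B : ℕ) : Cardinal.{x}) := (Nat.cast_card).symm
    rw [h2, lift_natCast] at h1
    have h3 : ((Nat.card B : ℕ) : Cardinal.{max v x})
        = lift.{x} ((Nat.card B : ℕ) : Cardinal.{v}) := by simp
    rw [h3] at h1
    exact lift_le.mp h1
  have hzE : Algebra.IsAlgebraic (Algebra.adjoin k (Set.range zE)) E := by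
    refine ⟨fun e => ?_⟩
    apply isAlgebraic_of_adjoin_eq
    have he : (e : L) ∈ IntermediateField.adjoin k (Set.range z) := e.2
    obtain ⟨r, s, hrs⟩ := (IntermediateField.mem_adjoin_range_iff k z _).mp he
    rw [IntermediateField.mem_adjoin_range_iff]
    refine ⟨r, s, ?_⟩
    apply E.val.injective
    change (e : L) = _
    rw [hrs, map_div₀]
    have h5 : ∀ p : MvPolynomial τ k,
        E.val (MvPolynomial.aeval zE p) = MvPolynomial.aeval z p :=
      fun p => MvPolynomial.comp_aeval_apply zE E.val p
    rw [← h5, ← h5]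
    rfl
  have htb : IsTranscendenceBasis k zE := by
    apply Algebra.IsAlgebraic.isTranscendenceBasis_of_lift_le_trdeg_of_finite
    have h2 : #τ = ((Nat.card τ : ℕ) : Cardinal.{w}) := (Nat.cast_card).symm
    rw [h2, lift_natCast, hcard]
    have h3 : ((Nat.card B : ℕ) : Cardinal.{max v w})
        = lift.{w} ((Nat.card B : ℕ) : Cardinal.{v}) := by simp
    rw [h3]
    exact lift_le.mpr htr
  have hz : AlgebraicIndependent k z := by
    have : z = E.val ∘ zE := rfl
    rw [this]
    exact htb.1.map' E.val.injective
  refine ⟨hz, ?_⟩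
  have hbb : IsTranscendenceBasis k bE := by
    apply hbE.isTranscendenceBasis_of_lift_trdeg_le_of_finite
    have h4 := htb.lift_cardinalMk_eq_trdeg
    have h2 : #τ = ((Nat.card τ : ℕ) : Cardinal.{w}) := (Nat.cast_card).symm
    have h5 : Algebra.trdeg k E = ((Nat.card τ : ℕ) : Cardinal.{v}) := by
      rw [h2, lift_natCast] at h4
      have h3 : ((Nat.card τ : ℕ) : Cardinal.{max v w})
          = lift.{w} ((Nat.card τ : ℕ) : Cardinal.{v}) := by simp
      rw [h3] at h4
      exact (lift_inj.mp h4).symm
    rw [h5, hcard]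
    have h6 : #B = ((Nat.card B : ℕ) : Cardinal.{x}) := (Nat.cast_card).symm
    rw [h6]
    simp
  have halg := hbb.isAlgebraic
  intro s
  have h7 := halg.isAlgebraic (zE s)
  -- transport from `E` to `L`
  have hmap : ∀ a : Algebra.adjoin k (Set.range bE),
      E.val (a : E) ∈ Algebra.adjoin k (Set.range b) := by
    rintro ⟨a, ha⟩
    rw [Algebra.adjoin_range_eq_range_aeval] at ha ⊢
    obtain ⟨p, hp⟩ := ha
    refine ⟨p, ?_⟩
    change MvPolynomial.aeval b p = E.val a
    have : MvPolynomial.aeval bE p = a := hp
    rw [← this]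
    exact (MvPolynomial.comp_aeval_apply bE E.val p).symm
  let f : Algebra.adjoin k (Set.range bE) →ₐ[k] Algebra.adjoin k (Set.range b) :=
    AlgHom.codRestrict (E.val.comp (Algebra.adjoin k (Set.range bE)).val) _ hmap
  have hf : Function.Injective f := by
    intro a a' haa
    have : ((f a : Algebra.adjoin k (Set.range b)) : L) = f a' := congrArg Subtype.val haa
    exact Subtype.ext (E.val.injective this)
  exact h7.ringHom_of_comp_eq f E.val hf (by ext a; rfl)

end Pool.Agent.IsoRep
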