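import Mathlib
import Pool.Agent.IsoRep.Count

/-!
# Comparing kernels of formal points
-/

set_option autoImplicit false

namespace Pool.Agent.IsoRep

open MvPolynomial

variable {k Ω : Type*} [Field k] [Field Ω] [Algebra k Ω] {τ J D : Type*}

/-- The field generated over `k` by the parameters. -/
abbrev Kc (k : Type*) {Ω J : Type*} [Field k] [Field Ω] [Algebra k Ω] (c : J → Ω) :
    IntermediateField k Ω := IntermediateField.adjoin k (Set.range c)

/-- A `good` formal point `z` for the parameters `c = N / δ`. -/
structure Good (c : J → Ω) (N : J → MvPolynomial τ k) (δ : MvPolynomial τ k)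
    (z : τ → MvPowerSeries D Ω) : Prop where
  det_ne : aeval z δ ≠ 0
  eqn : ∀ j, aeval z (N j) = aeval z δ * algebraMap Ω _ (c j)
  lin : ∀ a : D, ∃ p : MvPolynomial τ k, aeval z p = MvPowerSeries.X a
  coeffs : ∀ s m, MvPowerSeries.coeff m (z s) ∈ IntermediateField.adjoin k (Set.range c)

lemma algebraicIndependent_powerSeries_X :
    AlgebraicIndependent Ω (fun a : D => (MvPowerSeries.X a : MvPowerSeries D Ω)) := by
  rw [algebraicIndependent_iff_injective_aeval]
  have : ∀ p : MvPolynomial D Ω, aeval (fun a : D => (MvPowerSeries.X a : MvPowerSeries D Ω)) p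
      = (p : MvPowerSeries D Ω) := by
    intro p
    induction p using MvPolynomial.induction_on with
    | C a => simp [MvPowerSeries.algebraMap_apply]
    | add p q hp hq => rw [map_add, hp, hq, MvPolynomial.coe_add]
    | mul_X p n hp => rw [map_mul, hp, MvPolynomial.coe_mul]; simp
  intro p q hpq
  simp only [this] at hpq
  exact MvPolynomial.coe_injective D Ω hpq

section

variable {c : J → Ω} {N : J → MvPolynomial τ k} {δ : MvPolynomial τ k}
    {z : τ → MvPowerSeries D Ω}

lemma good_mem (h : Good c N δ z) (i : D ⊕ J) :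
    (algebraMap (MvPowerSeries D Ω) (FractionRing (MvPowerSeries D Ω)))
      (Sum.elim (fun a : D => (MvPowerSeries.X a : MvPowerSeries D Ω))
        (algebraMap Ω (MvPowerSeries D Ω) ∘ c) i) ∈
    IntermediateField.adjoin k (Set.range
      (algebraMap (MvPowerSeries D Ω) (FractionRing (MvPowerSeries D Ω)) ∘ z)) := by
  set L := FractionRing (MvPowerSeries D Ω)
  set α := algebraMap (MvPowerSeries D Ω) L
  have hα : ∀ p : MvPolynomial τ k, α (aeval z p) = aeval (α ∘ z) p := by
    intro p
    exact MvPolynomial.comp_aeval_apply z (IsScalarTower.toAlgHom k (MvPowerSeries D Ω) L) p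
  have hmem : ∀ p : MvPolynomial τ k, α (aeval z p) ∈
      IntermediateField.adjoin k (Set.range (α ∘ z)) := by
    intro p
    rw [hα]
    refine IntermediateField.algebra_adjoin_le_adjoin k _ ?_
    rw [Algebra.adjoin_range_eq_range_aeval]
    exact ⟨p, rfl⟩
  rcases i with a | j
  · obtain ⟨p, hp⟩ := h.lin a
    simp only [Sum.elim_inl]
    rw [← hp]
    exact hmem p
  · simp only [Sum.elim_inr, Function.comp_apply]
    have h1 := h.eqn j
    have h2 : α (aeval z δ) ≠ 0 := by
      intro h0
      apply h.det_ne
      exact IsFractionRing.injective (MvPowerSeries D Ω) L (by rw [h0, map_zero])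
    have h3 : α (algebraMap Ω _ (c j)) = α (aeval z (N j)) / α (aeval z δ) := by
      rw [eq_div_iff h2, h1, map_mul, mul_comm]
    rw [h3]
    exact div_mem (hmem _) (hmem _)

/-- Good points are generic: their coordinates are algebraically independent over `k`, and each
coordinate is algebraic over `Ω[v]`. -/
theorem Good.count [Finite τ] [Finite J] [Finite D]
    (hcard : Nat.card τ = Nat.card D + Nat.card J)
    (hc : AlgebraicIndependent k c) (h : Good c N δ z) :
    AlgebraicIndependent k z ∧
    ∀ s, IsAlgebraic (Algebra.adjoin Ω (Set.range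
      (fun a : D => (MvPowerSeries.X a : MvPowerSeries D Ω)))) (z s) := by
  set L := FractionRing (MvPowerSeries D Ω)
  let α := IsScalarTower.toAlgHom Ω (MvPowerSeries D Ω) L
  have hαinj : Function.Injective α := IsFractionRing.injective (MvPowerSeries D Ω) L
  let b : D ⊕ J → MvPowerSeries D Ω := Sum.elim
    (fun a : D => (MvPowerSeries.X a : MvPowerSeries D Ω)) (algebraMap Ω (MvPowerSeries D Ω) ∘ c)
  have hb : AlgebraicIndependent k b := hc.sumElim_comp algebraicIndependent_powerSeries_X
  let bL : D ⊕ J → L := α ∘ b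
  have hbL : AlgebraicIndependent k bL := by
    have : bL = (α.restrictScalars k) ∘ b := rfl
    rw [this]
    exact hb.map' hαinj
  have hcard' : Nat.card τ = Nat.card (D ⊕ J) := by rw [Nat.card_sum, hcard]
  obtain ⟨h1, h2⟩ := Pool.Agent.IsoRep.count hcard' (α ∘ z) bL hbL (fun i => good_mem h i)
  refine ⟨?_, fun s => ?_⟩
  · have : α ∘ z = (α.restrictScalars k) ∘ z := rfl
    rw [this] at h1
    exact h1.of_comp _
  · have h3 := h2 s
    -- compare subalgebras
    set S := Algebra.adjoin Ω (Set.range
      (fun a : D => (MvPowerSeries.X a : MvPowerSeries D Ω))) with hS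
    have hbS : ∀ i, b i ∈ S := by
      rintro (a | j)
      · exact Algebra.subset_adjoin ⟨a, rfl⟩
      · exact S.algebraMap_mem (c j)
    have hbq : ∀ q : MvPolynomial (D ⊕ J) k, aeval b q ∈ S := by
      intro q
      induction q using MvPolynomial.induction_on with
      | C a =>
        rw [MvPolynomial.aeval_C, IsScalarTower.algebraMap_apply k Ω]
        exact S.algebraMap_mem _
      | add p q hp hq => rw [map_add]; exact add_mem hp hq
      | mul_X p n hp => rw [map_mul, aeval_X]; exact mul_mem hp (hbS n)
    obtain ⟨p, hp0, hp⟩ := h3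
    -- lift the coefficients
    have hle : ∀ x : Algebra.adjoin k (Set.range bL), ∃ y : S, α (y : MvPowerSeries D Ω) = x := by
      rintro ⟨x, hx⟩
      have hx' := hx
      rw [Algebra.adjoin_range_eq_range_aeval] at hx'
      obtain ⟨q, hq⟩ := hx'
      refine ⟨⟨_, hbq q⟩, ?_⟩
      exact (MvPolynomial.comp_aeval_apply b (α.restrictScalars k) q).trans hq
    choose g hg using hle
    have hgadd : ∀ x y, g (x + y) = g x + g y := by
      intro x y
      apply Subtype.ext
      apply hαinj
      simp only [Subalgebra.coe_add, map_add, hg]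
    have hgmul : ∀ x y, g (x * y) = g x * g y := by
      intro x y
      apply Subtype.ext
      apply hαinj
      simp only [Subalgebra.coe_mul, map_mul, hg]
    have hgone : g 1 = 1 := by
      apply Subtype.ext
      apply hαinj
      rw [hg]; simp
    have hgzero : g 0 = 0 := by
      apply Subtype.ext
      apply hαinj
      rw [hg]; simp
    let G : Algebra.adjoin k (Set.range bL) →+* S :=
      { toFun := g, map_add' := hgadd, map_mul' := hgmul, map_one' := hgone, map_zero' := hgzero }
    have hGinj : Function.Injective G := by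
      intro x y hxy
      apply Subtype.ext
      rw [← hg x, ← hg y]
      exact congrArg (fun t : S => α (t : MvPowerSeries D Ω)) hxy
    refine ⟨p.map G, (Polynomial.map_ne_zero_iff hGinj).mpr hp0, ?_⟩
    apply hαinj
    rw [map_zero, ← hp]
    rw [Polynomial.aeval_def, Polynomial.eval₂_map, Polynomial.aeval_def]
    have := Polynomial.hom_eval₂ p ((algebraMap S (MvPowerSeries D Ω)).comp G) α.toRingHom (z s)
    refine this.trans ?_
    congr 1
    ext x
    exact hg x

/-- The embedding of `k(τ)` into the fraction field of the power series ring given by a generic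
point. -/
noncomputable def theta (hz : AlgebraicIndependent k z) :
    FractionRing (MvPolynomial τ k) →ₐ[k] FractionRing (MvPowerSeries D Ω) :=
  IsFractionRing.liftAlgHom (K := FractionRing (MvPolynomial τ k))
    (g := (IsScalarTower.toAlgHom k (MvPowerSeries D Ω) (FractionRing (MvPowerSeries D Ω))).comp
      (aeval z)) (by
      rw [AlgHom.coe_comp]
      exact (IsFractionRing.injective (MvPowerSeries D Ω) (FractionRing (MvPowerSeries D Ω))).comp
        (algebraicIndependent_iff_injective_aeval.mp hz))

lemma theta_algebraMap (hz : AlgebraicIndependent k z) (p : MvPolynomial τ k) :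
    theta hz (algebraMap _ _ p) = algebraMap (MvPowerSeries D Ω) _ (aeval z p) := by
  simp [theta]

lemma theta_chat (hz : AlgebraicIndependent k z) (h : Good c N δ z) (j : J) :
    theta hz (algebraMap _ _ (N j) / algebraMap _ _ δ)
      = algebraMap (MvPowerSeries D Ω) _ (algebraMap Ω _ (c j)) := by
  have h2 : algebraMap (MvPowerSeries D Ω) (FractionRing (MvPowerSeries D Ω)) (aeval z δ) ≠ 0 := by
    intro h0
    apply h.det_ne
    exact IsFractionRing.injective (MvPowerSeries D Ω) (FractionRing (MvPowerSeries D Ω))
      (by rw [h0, map_zero])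
  rw [map_div₀, theta_algebraMap, theta_algebraMap, div_eq_iff h2, h.eqn j, map_mul, mul_comm]

/-- The evaluation of a polynomial with coefficients in `k(c)` at a good point vanishes at one
good point iff it vanishes at any other good point. -/
theorem Good.aeval_eq_zero_aux [Finite τ] [Finite J] [Finite D]
    (hcard : Nat.card τ = Nat.card D + Nat.card J)
    (hc : AlgebraicIndependent k c) (h : Good c N δ z)
    {z' : τ → MvPowerSeries D Ω} (h' : Good c N δ z')
    (g : MvPolynomial τ (Kc k c))
    (hg : aeval z g = 0) : aeval z' g = 0 := by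
  set F := FractionRing (MvPolynomial τ k)
  set L := FractionRing (MvPowerSeries D Ω)
  have hz := (h.count hcard hc).1
  have hz' := (h'.count hcard hc).1
  let chat : J → F := fun j => algebraMap _ _ (N j) / algebraMap _ _ δ
  have hchat : AlgebraicIndependent k chat := by
    apply AlgebraicIndependent.of_comp (theta hz)
    have : theta hz ∘ chat
        = (IsScalarTower.toAlgHom k Ω L) ∘ c := by
      funext j
      exact theta_chat hz h j
    rw [this]
    exact hc.map' (IsScalarTower.toAlgHom k Ω L).injective
  let κ : Kc k c →ₐ[k] F := (IntermediateField.val _).comp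
    (hchat.aevalEquivField.toAlgHom.comp hc.aevalEquivField.symm.toAlgHom)
  have hκ : ∀ j, κ ⟨c j, IntermediateField.subset_adjoin k _ ⟨j, rfl⟩⟩ = chat j := by
    intro j
    have h1 : hc.aevalEquivField.symm ⟨c j, IntermediateField.subset_adjoin k _ ⟨j, rfl⟩⟩
        = algebraMap (MvPolynomial J k) _ (X j) := by
      rw [AlgEquiv.symm_apply_eq]
      apply Subtype.ext
      rw [hc.aevalEquivField_algebraMap_apply_coe]
      simp
    change ((hchat.aevalEquivField (hc.aevalEquivField.symm _) : _) : F) = _
    rw [h1, hchat.aevalEquivField_algebraMap_apply_coe]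
    simp
  have key : ∀ (w : τ → MvPowerSeries D Ω) (hw : AlgebraicIndependent k w) (hw' : Good c N δ w),
      (theta hw).comp κ = (IsScalarTower.toAlgHom k Ω L).comp (Kc k c).val := by
    intro w hw hw'
    refine IntermediateField.algHom_ext_of_eq_adjoin k rfl ?_
    rintro _ ⟨j, rfl⟩
    change theta hw (κ ⟨c j, _⟩) = _
    rw [hκ]
    exact theta_chat hw hw' j
  have key2 : ∀ (w : τ → MvPowerSeries D Ω) (hw : AlgebraicIndependent k w) (hw' : Good c N δ w),
      theta hw (eval₂ (κ : Kc k c →+* F) (fun s => algebraMap (MvPolynomial τ k) F (X s)) g)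
        = algebraMap (MvPowerSeries D Ω) L (aeval w g) := by
    intro w hw hw'
    have h1 := MvPolynomial.hom_eval₂ g (κ : Kc k c →+* F) (theta hw : F →+* L)
      (fun s => algebraMap (MvPolynomial τ k) F (X s))
    have h2 := MvPolynomial.hom_eval₂ g (algebraMap (Kc k c) (MvPowerSeries D Ω))
      (algebraMap (MvPowerSeries D Ω) L) w
    rw [MvPolynomial.aeval_def]
    refine Eq.trans h1 (Eq.trans ?_ h2.symm)
    congr 1
    · ext a
      exact congrArg (fun t : Kc k c →ₐ[k] L => t a) (key w hw hw')
    · funext s
      change theta hw (algebraMap _ _ (X s)) = _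
      rw [theta_algebraMap, aeval_X]
  have h3 := key2 z hz h
  rw [hg, map_zero] at h3
  have h4 : eval₂ (κ : Kc k c →+* F) (fun s => algebraMap (MvPolynomial τ k) F (X s)) g = 0 :=
    (theta hz).toRingHom.injective (by rw [map_zero]; exact h3)
  have h5 := key2 z' hz' h'
  rw [h4, map_zero] at h5
  exact IsFractionRing.injective (MvPowerSeries D Ω) L (by rw [← h5, map_zero])

/-- Apply a functional to all coefficients of a polynomial. -/
noncomputable def descend (ε : Ω →ₗ[Kc k c] Kc k c) (f : MvPolynomial τ Ω) :
    MvPolynomial τ (Kc k c) :=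
  ∑ m ∈ f.support, monomial m (ε (f.coeff m))

lemma coeff_aeval_descend (ε : Ω →ₗ[Kc k c] Kc k c) (f : MvPolynomial τ Ω)
    (hz : ∀ s m, MvPowerSeries.coeff m (z s) ∈ Kc k c) (n : D →₀ ℕ) :
    MvPowerSeries.coeff n (aeval z (descend (k := k) (c := c) ε f))
      = (ε (MvPowerSeries.coeff n (aeval z f)) : Ω) := by
  classical
  let z₀ : τ → MvPowerSeries D (Kc k c) := fun s m => ⟨MvPowerSeries.coeff m (z s), hz s m⟩
  let φ : MvPowerSeries D (Kc k c) →+* MvPowerSeries D Ω :=
    MvPowerSeries.map (algebraMap (Kc k c) Ω)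
  have hzz : ∀ s, z s = φ (z₀ s) := by
    intro s
    ext m
    rw [MvPowerSeries.coeff_map]
    rfl
  have hprod : ∀ m : τ →₀ ℕ, (m.prod fun s e => z s ^ e) = φ (m.prod fun s e => z₀ s ^ e) := by
    intro m
    rw [Finsupp.prod, Finsupp.prod, map_prod]
    refine Finset.prod_congr rfl fun s _ => ?_
    rw [map_pow, hzz]
  have h1 : MvPowerSeries.coeff n (aeval z f)
      = ∑ m ∈ f.support, f.coeff m *
        ((MvPowerSeries.coeff n (m.prod fun s e => z₀ s ^ e) : Kc k c) : Ω) := by
    conv_lhs => rw [f.as_sum]
    rw [map_sum, map_sum]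
    refine Finset.sum_congr rfl fun m _ => ?_
    rw [aeval_monomial, hprod, MvPowerSeries.algebraMap_apply, Algebra.algebraMap_self,
      RingHom.id_apply, MvPowerSeries.coeff_C_mul, MvPowerSeries.coeff_map]
    rfl
  have h2 : MvPowerSeries.coeff n (aeval z (descend (k := k) (c := c) ε f))
      = ∑ m ∈ f.support, (ε (f.coeff m) : Ω) *
        ((MvPowerSeries.coeff n (m.prod fun s e => z₀ s ^ e) : Kc k c) : Ω) := by
    rw [descend, map_sum, map_sum]
    refine Finset.sum_congr rfl fun m _ => ?_
    rw [aeval_monomial, hprod, IsScalarTower.algebraMap_apply (Kc k c) Ω (MvPowerSeries D Ω),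
      MvPowerSeries.algebraMap_apply, Algebra.algebraMap_self,
      RingHom.id_apply, MvPowerSeries.coeff_C_mul, MvPowerSeries.coeff_map]
    rfl
  rw [h1, h2, map_sum]
  refine Eq.trans ?_ (map_sum (algebraMap (Kc k c) Ω) _ _).symm
  refine Finset.sum_congr rfl fun m _ => ?_
  have h3 : f.coeff m * ((MvPowerSeries.coeff n (m.prod fun s e => z₀ s ^ e) : Kc k c) : Ω)
      = (MvPowerSeries.coeff n (m.prod fun s e => z₀ s ^ e) : Kc k c) • f.coeff m := by
    rw [mul_comm]; rfl
  rw [h3, map_smul]
  change _ = ((_ * _ : Kc k c) : Ω)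
  rw [mul_comm]
  rfl

/-- **Comparison theorem.** All good points have the same kernel. -/
theorem Good.ker_le [Finite τ] [Finite J] [Finite D]
    (hcard : Nat.card τ = Nat.card D + Nat.card J)
    (hc : AlgebraicIndependent k c) (h : Good c N δ z)
    {z' : τ → MvPowerSeries D Ω} (h' : Good c N δ z')
    (f : MvPolynomial τ Ω) (hf : aeval z f = 0) : aeval z' f = 0 := by
  by_contra hne
  obtain ⟨n, hn⟩ : ∃ n, MvPowerSeries.coeff n (aeval z' f) ≠ 0 := by
    by_contra hcon
    push Not at hcon
    exact hne (MvPowerSeries.ext fun n => by rw [hcon n, map_zero])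
  obtain ⟨ε, hε⟩ := Module.Projective.exists_dual_ne_zero (Kc k c) hn
  have h1 : aeval z (descend (k := k) (c := c) ε f) = 0 := by
    ext m
    rw [coeff_aeval_descend ε f h.coeffs, hf]
    simp
  have h2 := h.aeval_eq_zero_aux hcard hc h' _ h1
  apply hε
  have h3 := coeff_aeval_descend ε f h'.coeffs n
  rw [h2, map_zero] at h3
  exact Subtype.ext h3.symm

end

end Pool.Agent.IsoRep
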