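import Mathlib

/-!
# Formal solutions of contracting polynomial systems

Given a system `ξ j = P j (v, ξ)` with every `P j` in the square of the ideal of the variables,
there is a unique solution `ξ` in power series in `v` without constant term.
-/

set_option autoImplicit false

namespace Pool.Agent.IsoRep

open MvPolynomial

section

variable {σ J R : Type*} [CommRing R]

/-- The ideal generated by all variables. -/
noncomputable def varIdeal (τ R : Type*) [CommRing R] : Ideal (MvPolynomial τ R) :=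
  Ideal.span (Set.range (X : τ → MvPolynomial τ R))

/-- Evaluation of a polynomial in variables `σ ⊕ J` at `(v, ξ)`. -/
noncomputable def ev (ξ : J → MvPowerSeries σ R) :
    MvPolynomial (σ ⊕ J) R →ₐ[R] MvPowerSeries σ R :=
  aeval (Sum.elim (fun a => (MvPowerSeries.X a : MvPowerSeries σ R)) ξ)

@[simp] lemma ev_inl (ξ : J → MvPowerSeries σ R) (a : σ) :
    ev ξ (X (Sum.inl a)) = MvPowerSeries.X a := by simp [ev]

@[simp] lemma ev_inr (ξ : J → MvPowerSeries σ R) (j : J) :
    ev ξ (X (Sum.inr j)) = ξ j := by simp [ev]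

lemma le_order_sub (ξ ξ' : J → MvPowerSeries σ R) (m : ℕ∞)
    (h : ∀ j, m ≤ (ξ j - ξ' j).order) (p : MvPolynomial (σ ⊕ J) R) :
    m ≤ (ev ξ p - ev ξ' p).order := by
  induction p using MvPolynomial.induction_on with
  | C a => simp [ev]
  | add p q hp hq =>
    have : ev ξ (p + q) - ev ξ' (p + q) = (ev ξ p - ev ξ' p) + (ev ξ q - ev ξ' q) := by
      simp only [map_add]; ring
    rw [this]
    exact le_trans (le_min hp hq) MvPowerSeries.min_order_le_add
  | mul_X p n hp =>
    have : ev ξ (p * X n) - ev ξ' (p * X n)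
        = (ev ξ p - ev ξ' p) * ev ξ (X n) + ev ξ' p * (ev ξ (X n) - ev ξ' (X n)) := by
      simp only [map_mul]; ring
    rw [this]
    refine le_trans (le_min ?_ ?_) MvPowerSeries.min_order_le_add
    · exact le_trans (le_trans hp le_self_add) MvPowerSeries.le_order_mul
    · refine le_trans ?_ MvPowerSeries.le_order_mul
      refine le_trans ?_ le_add_self
      rcases n with a | j
      · simp
      · simpa using h j

lemma one_le_order_of_mem (ξ : J → MvPowerSeries σ R)
    (h : ∀ j, MvPowerSeries.constantCoeff (ξ j) = 0) (p : MvPolynomial (σ ⊕ J) R)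
    (hp : p ∈ varIdeal (σ ⊕ J) R) : 1 ≤ (ev ξ p).order := by
  rw [MvPowerSeries.one_le_order_iff_constCoeff_eq_zero]
  have : varIdeal (σ ⊕ J) R ≤ RingHom.ker
      ((MvPowerSeries.constantCoeff (σ := σ) (R := R)).comp (ev ξ).toRingHom) := by
    rw [varIdeal, Ideal.span_le]
    rintro _ ⟨n, rfl⟩
    rcases n with a | j
    · simp [RingHom.mem_ker]
    · simpa [RingHom.mem_ker] using h j
  exact this hp

lemma succ_le_order_sub (ξ ξ' : J → MvPowerSeries σ R)
    (h0 : ∀ j, MvPowerSeries.constantCoeff (ξ j) = 0)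
    (h0' : ∀ j, MvPowerSeries.constantCoeff (ξ' j) = 0) (m : ℕ∞)
    (h : ∀ j, m ≤ (ξ j - ξ' j).order) (p : MvPolynomial (σ ⊕ J) R)
    (hp : p ∈ (varIdeal (σ ⊕ J) R) ^ 2) :
    m + 1 ≤ (ev ξ p - ev ξ' p).order := by
  rw [pow_two] at hp
  refine Submodule.mul_induction_on hp ?_ ?_
  · intro a ha b hb
    have : ev ξ (a * b) - ev ξ' (a * b)
        = (ev ξ a - ev ξ' a) * ev ξ b + ev ξ' a * (ev ξ b - ev ξ' b) := by
      simp only [map_mul]; ring
    rw [this]
    refine le_trans (le_min ?_ ?_) MvPowerSeries.min_order_le_add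
    · exact le_trans (add_le_add (le_order_sub ξ ξ' m h a) (one_le_order_of_mem ξ h0 b hb))
        MvPowerSeries.le_order_mul
    · rw [add_comm m 1]
      exact le_trans (add_le_add (one_le_order_of_mem ξ' h0' a ha) (le_order_sub ξ ξ' m h b))
        MvPowerSeries.le_order_mul
  · intro a b ha hb
    have : ev ξ (a + b) - ev ξ' (a + b) = (ev ξ a - ev ξ' a) + (ev ξ b - ev ξ' b) := by
      simp only [map_add]; ring
    rw [this]
    exact le_trans (le_min ha hb) MvPowerSeries.min_order_le_add

/-- `ξ` is a solution without constant term of the system `ξ j = P j (v, ξ)`. -/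
def IsSol (P : J → MvPolynomial (σ ⊕ J) R) (ξ : J → MvPowerSeries σ R) : Prop :=
  (∀ j, MvPowerSeries.constantCoeff (ξ j) = 0) ∧ ∀ j, ξ j = ev ξ (P j)

lemma eq_zero_of_order {f : MvPowerSeries σ R} (h : ∀ n : ℕ, (n : ℕ∞) ≤ f.order) : f = 0 := by
  rw [← MvPowerSeries.order_eq_top_iff]
  exact ENat.eq_top_iff_forall_ge.mpr h

lemma IsSol.unique {P : J → MvPolynomial (σ ⊕ J) R} (hP : ∀ j, P j ∈ (varIdeal (σ ⊕ J) R) ^ 2)
    {ξ ξ' : J → MvPowerSeries σ R} (h : IsSol P ξ) (h' : IsSol P ξ') : ξ = ξ' := by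
  have key : ∀ n : ℕ, ∀ j, (n : ℕ∞) ≤ (ξ j - ξ' j).order := by
    intro n
    induction n with
    | zero => intro j; simp
    | succ n ih =>
      intro j
      rw [h.2 j, h'.2 j]
      exact_mod_cast succ_le_order_sub ξ ξ' h.1 h'.1 n ih (P j) (hP j)
  funext j
  exact sub_eq_zero.mp (eq_zero_of_order fun n => key n j)

/-- The Picard iteration. -/
noncomputable def iter (P : J → MvPolynomial (σ ⊕ J) R) : ℕ → J → MvPowerSeries σ R
  | 0 => 0
  | n + 1 => fun j => ev (iter P n) (P j)

lemma varIdeal_sq_le {τ : Type*} : (varIdeal τ R) ^ 2 ≤ varIdeal τ R := Ideal.pow_le_self two_ne_zero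

lemma iter_constantCoeff {P : J → MvPolynomial (σ ⊕ J) R}
    (hP : ∀ j, P j ∈ (varIdeal (σ ⊕ J) R) ^ 2) (n : ℕ) (j : J) :
    MvPowerSeries.constantCoeff (iter P n j) = 0 := by
  induction n generalizing j with
  | zero => simp [iter]
  | succ n ih =>
    rw [← MvPowerSeries.one_le_order_iff_constCoeff_eq_zero]
    exact one_le_order_of_mem _ ih _ (varIdeal_sq_le (hP j))

lemma iter_succ_sub {P : J → MvPolynomial (σ ⊕ J) R}
    (hP : ∀ j, P j ∈ (varIdeal (σ ⊕ J) R) ^ 2) (n : ℕ) (j : J) :
    ((n + 1 : ℕ) : ℕ∞) ≤ (iter P (n + 1) j - iter P n j).order := by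
  induction n generalizing j with
  | zero =>
    have h : iter P 0 j = 0 := rfl
    rw [h, sub_zero]
    have := iter_constantCoeff hP 1 j
    rw [← MvPowerSeries.one_le_order_iff_constCoeff_eq_zero] at this
    simpa using this
  | succ n ih =>
    have := succ_le_order_sub (iter P (n + 1)) (iter P n) (iter_constantCoeff hP _)
      (iter_constantCoeff hP _) ((n + 1 : ℕ) : ℕ∞) ih (P j) (hP j)
    exact_mod_cast this

lemma iter_sub {P : J → MvPolynomial (σ ⊕ J) R}
    (hP : ∀ j, P j ∈ (varIdeal (σ ⊕ J) R) ^ 2) (n k : ℕ) (j : J) :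
    ((n + 1 : ℕ) : ℕ∞) ≤ (iter P (n + k) j - iter P n j).order := by
  induction k with
  | zero => simp
  | succ k ih =>
    have : iter P (n + (k + 1)) j - iter P n j
        = (iter P (n + k + 1) j - iter P (n + k) j) + (iter P (n + k) j - iter P n j) := by
      rw [← add_assoc]; ring
    rw [this]
    refine le_trans (le_min ?_ ih) MvPowerSeries.min_order_le_add
    refine le_trans ?_ (iter_succ_sub hP (n + k) j)
    exact_mod_cast (by omega : n + 1 ≤ n + k + 1)

/-- The limit of the Picard iteration. -/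
noncomputable def limSol (P : J → MvPolynomial (σ ⊕ J) R) (j : J) : MvPowerSeries σ R :=
  fun m => MvPowerSeries.coeff m (iter P (Finsupp.degree m) j)

lemma limSol_sub {P : J → MvPolynomial (σ ⊕ J) R}
    (hP : ∀ j, P j ∈ (varIdeal (σ ⊕ J) R) ^ 2) (n : ℕ) (j : J) :
    ((n + 1 : ℕ) : ℕ∞) ≤ (limSol P j - iter P n j).order := by
  apply MvPowerSeries.nat_le_order
  intro m hm
  have hm' : Finsupp.degree m ≤ n := by omega
  obtain ⟨k, hk⟩ := Nat.exists_eq_add_of_le hm'
  have h1 := iter_sub hP (Finsupp.degree m) k j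
  have h2 : MvPowerSeries.coeff m (iter P (Finsupp.degree m + k) j
      - iter P (Finsupp.degree m) j) = 0 := by
    apply MvPowerSeries.coeff_of_lt_order
    refine lt_of_lt_of_le ?_ h1
    exact_mod_cast Nat.lt_succ_self _
  rw [← hk] at h2
  have h3 : MvPowerSeries.coeff m (limSol P j)
      = MvPowerSeries.coeff m (iter P (Finsupp.degree m) j) := rfl
  rw [map_sub, h3, ← neg_sub, ← map_sub, h2, neg_zero]

theorem isSol_limSol {P : J → MvPolynomial (σ ⊕ J) R}
    (hP : ∀ j, P j ∈ (varIdeal (σ ⊕ J) R) ^ 2) : IsSol P (limSol P) := by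
  have h0 : ∀ j, MvPowerSeries.constantCoeff (limSol P j) = 0 := by
    intro j
    have := limSol_sub hP 0 j
    rw [show iter P 0 j = 0 from rfl, sub_zero] at this
    rw [← MvPowerSeries.one_le_order_iff_constCoeff_eq_zero]
    simpa using this
  refine ⟨h0, fun j => ?_⟩
  refine sub_eq_zero.mp (eq_zero_of_order fun n => ?_)
  have h1 := limSol_sub hP (n + 1) j
  have h2 := le_order_sub (iter P n) (limSol P) n (fun j' => by
    have := limSol_sub hP n j'
    rw [← neg_sub, MvPowerSeries.order_neg]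
    refine le_trans ?_ this
    exact_mod_cast Nat.le_succ n) (P j)
  have : limSol P j - ev (limSol P) (P j)
      = (limSol P j - iter P (n + 1) j) + (ev (iter P n) (P j) - ev (limSol P) (P j)) := by
    rw [show iter P (n + 1) j = ev (iter P n) (P j) from rfl]; ring
  rw [this]
  refine le_trans (le_min ?_ h2) MvPowerSeries.min_order_le_add
  refine le_trans ?_ h1
  exact_mod_cast (by omega : n ≤ n + 1 + 1)

lemma map_ev {R' : Type*} [CommRing R'] (g : R →+* R') (ξ : J → MvPowerSeries σ R)
    (p : MvPolynomial (σ ⊕ J) R) :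
    MvPowerSeries.map g (ev ξ p)
      = ev (fun j => MvPowerSeries.map g (ξ j)) (MvPolynomial.map g p) := by
  induction p using MvPolynomial.induction_on with
  | C a =>
    simp only [ev, MvPolynomial.algHom_C, MvPolynomial.map_C, MvPowerSeries.algebraMap_apply]
    simp
  | add p q hp hq => simp only [map_add, hp, hq]
  | mul_X p n hp =>
    simp only [map_mul, hp, MvPolynomial.map_X]
    rcases n with a | j
    · simp
    · simp

lemma IsSol.map {R' : Type*} [CommRing R'] (g : R →+* R')
    {P : J → MvPolynomial (σ ⊕ J) R} {ξ : J → MvPowerSeries σ R} (h : IsSol P ξ) :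
    IsSol (fun j => MvPolynomial.map g (P j)) (fun j => MvPowerSeries.map g (ξ j)) := by
  refine ⟨fun j => ?_, fun j => ?_⟩
  · rw [MvPowerSeries.constantCoeff_map, h.1 j, map_zero]
  · rw [← map_ev, ← h.2 j]

end

end Pool.Agent.IsoRep
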