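import Mathlib
import Pool.Agent.IsoRep.Fixpoint
import Pool.Agent.IsoRep.Compare

/-!
# The equivariant system of equations
-/

set_option autoImplicit false
set_option linter.unusedSectionVars false

namespace Pool.Agent.IsoRep

open MvPolynomial

/-- Linear algebra data from which the variety is constructed. -/
structure Datum (k : Type*) [Field k] (Γ ι Λ D : Type*) [Group Γ] [MulAction Γ Λ] [Fintype D]
    [DecidableEq D] where
  base : ι → Λ
  rep : ι → Γ →* Matrix D D k
  phi : ι → MvPolynomial D k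
  vec : ι → D → k
  base_inj : ∀ (γ : Γ) (i i' : ι), γ • base i = base i' → i = i'
  rep_trivial : ∀ (γ : Γ) (i j : ι), γ • base i = base i → j ≠ i → rep j γ = 1
  phi_mem : ∀ i, phi i ∈ varIdeal D k ^ 2
  phi_one : ∀ i, eval (vec i) (phi i) = 1
  phi_zero : ∀ i (γ : Γ), γ • base i = base i → γ ≠ 1 →
    eval ((rep i γ).mulVec (vec i)) (phi i) = 0

/-- Ambient coordinates: `s_a`, `u_{j,a}` and `x_λ`. -/
abbrev Amb (ι Λ D : Type*) := (Option ι × D) ⊕ Λ

/-- Index set of the equations. -/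
abbrev Eqs (ι Λ D : Type*) := (ι × D) ⊕ Λ

/-- Action on the index set of the equations. -/
def actJ {Γ ι Λ D : Type*} [Group Γ] [MulAction Γ Λ] (γ : Γ) : Equiv.Perm (Eqs ι Λ D) :=
  Equiv.sumCongr (Equiv.refl _) (MulAction.toPerm γ)

namespace Datum

variable {k : Type*} [Field k] {Γ ι Λ D : Type*} [Group Γ] [MulAction Γ Λ] [Fintype D]
    [DecidableEq D] (𝒟 : Datum k Γ ι Λ D)

/-- Images of the coordinates under the action. -/
noncomputable def actVal (S : Type*) [CommRing S] [Algebra k S] (γ : Γ) :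
    Amb ι Λ D → MvPolynomial (Amb ι Λ D) S
  | Sum.inl (none, a) => X (Sum.inl (none, a))
  | Sum.inl (some j, a) =>
      ∑ b, C (algebraMap k S (𝒟.rep j γ⁻¹ a b)) * X (Sum.inl (some j, b))
  | Sum.inr l => X (Sum.inr (γ • l))

/-- The action of `Γ` on polynomial functions. -/
noncomputable def act (S : Type*) [CommRing S] [Algebra k S] (γ : Γ) :
    MvPolynomial (Amb ι Λ D) S →ₐ[S] MvPolynomial (Amb ι Λ D) S :=
  aeval (𝒟.actVal S γ)

section act

variable (S : Type*) [CommRing S] [Algebra k S]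

@[simp] lemma act_s (γ : Γ) (a : D) :
    𝒟.act S γ (X (Sum.inl (none, a))) = X (Sum.inl (none, a)) := by
  simp [act, actVal]

@[simp] lemma act_u (γ : Γ) (j : ι) (a : D) :
    𝒟.act S γ (X (Sum.inl (some j, a)))
      = ∑ b, C (algebraMap k S (𝒟.rep j γ⁻¹ a b)) * X (Sum.inl (some j, b)) := by
  simp [act, actVal]

@[simp] lemma act_x (γ : Γ) (l : Λ) :
    𝒟.act S γ (X (Sum.inr l)) = X (Sum.inr (γ • l)) := by
  simp [act, actVal]

lemma act_mul (γ γ' : Γ) : 𝒟.act S (γ * γ') = (𝒟.act S γ).comp (𝒟.act S γ') := by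
  apply MvPolynomial.algHom_ext
  rintro (⟨_ | j, a⟩ | l)
  · simp
  · simp only [act_u, AlgHom.comp_apply, map_sum, map_mul, MvPolynomial.algHom_C,
      MvPolynomial.algebraMap_eq, mul_inv_rev]
    have h1 : ∀ c : D, (algebraMap k S) ((𝒟.rep j γ'⁻¹ * 𝒟.rep j γ⁻¹) a c)
        = ∑ b, algebraMap k S (𝒟.rep j γ'⁻¹ a b) * algebraMap k S (𝒟.rep j γ⁻¹ b c) := by
      intro c
      rw [Matrix.mul_apply, map_sum]
      simp only [map_mul]
    simp only [h1, map_sum, map_mul, Finset.sum_mul, Finset.mul_sum]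
    rw [Finset.sum_comm]
    refine Finset.sum_congr rfl fun b _ => Finset.sum_congr rfl fun c _ => ?_
    ring
  · simp [mul_smul]

lemma act_one : 𝒟.act S 1 = AlgHom.id S _ := by
  apply MvPolynomial.algHom_ext
  rintro (⟨_ | j, a⟩ | l)
  · simp
  · simp only [act_u, inv_one, map_one, AlgHom.id_apply]
    rw [Finset.sum_eq_single a]
    · simp
    · intro b _ hb
      rw [Matrix.one_apply_ne (Ne.symm hb)]
      simp
    · simp
  · simp

lemma act_map {S' : Type*} [CommRing S'] [Algebra k S'] (g : S →ₐ[k] S') (γ : Γ)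
    (p : MvPolynomial (Amb ι Λ D) S) :
    𝒟.act S' γ (MvPolynomial.map (g : S →+* S') p)
      = MvPolynomial.map (g : S →+* S') (𝒟.act S γ p) := by
  induction p using MvPolynomial.induction_on with
  | C a => simp
  | add p q hp hq => simp only [map_add, hp, hq]
  | mul_X p n hp =>
    simp only [map_mul, hp, MvPolynomial.map_X]
    congr 1
    rcases n with ⟨_ | j, a⟩ | l
    · simp
    · simp
    · simp

end act

/-- The linear coordinate `D_i(s,u)_{(j,a)}`. -/
noncomputable def dvar [DecidableEq ι] (i : ι) (ja : ι × D) : MvPolynomial (Amb ι Λ D) k :=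
  if ja.1 = i then X (Sum.inl (none, ja.2)) else X (Sum.inl (some ja.1, ja.2))

/-- The scalar function `f`. -/
noncomputable def fpoly [Fintype ι] : MvPolynomial (Amb ι Λ D) k :=
  ∑ i, X (Sum.inr (𝒟.base i)) * rename (fun a => Sum.inl (some i, a)) (𝒟.phi i)

/-- The left hand sides `Φ`. -/
noncomputable def Phi [Fintype ι] [DecidableEq ι] [Fintype Γ] :
    Eqs ι Λ D → MvPolynomial (Amb ι Λ D) k
  | Sum.inl ja => ∑ γ : Γ, ∑ i, 𝒟.act k γ (X (Sum.inr (𝒟.base i)) * dvar i ja)
  | Sum.inr l => X (Sum.inr l) ^ 2 - X (Sum.inr l)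

/-- The matrix `M`. -/
noncomputable def Mat [Fintype ι] [DecidableEq ι] [Fintype Γ] [DecidableEq Λ] :
    Matrix (Eqs ι Λ D) (Eqs ι Λ D) (MvPolynomial (Amb ι Λ D) k) :=
  fun j j' => ∑ γ : Γ, if actJ γ j' = j then 𝒟.act k γ 𝒟.fpoly else 0

variable [Fintype ι] [DecidableEq ι] [Fintype Γ]

lemma act_Phi (γ : Γ) (j : Eqs ι Λ D) : 𝒟.act k γ (𝒟.Phi j) = 𝒟.Phi (actJ γ j) := by
  rcases j with ja | l
  · simp only [Phi, actJ, Equiv.sumCongr_apply, Sum.map_inl, Equiv.refl_apply]
    rw [map_sum]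
    refine Fintype.sum_bijective (fun γ' => γ * γ') (Group.mulLeft_bijective γ) _ _ ?_
    intro γ'
    rw [map_sum]
    refine Finset.sum_congr rfl fun i _ => ?_
    rw [act_mul]; rfl
  · simp only [Phi, actJ, Equiv.sumCongr_apply, Sum.map_inr, map_sub, map_pow, act_x]
    rfl

lemma actJ_mul (γ γ' : Γ) (j : Eqs ι Λ D) : actJ (γ * γ') j = actJ γ (actJ γ' j) := by
  rcases j with ja | l
  · rfl
  · simp [actJ, mul_smul]

lemma act_Mat [DecidableEq Λ] (γ : Γ) (j j' : Eqs ι Λ D) :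
    𝒟.act k γ (𝒟.Mat j j') = 𝒟.Mat (actJ γ j) j' := by
  simp only [Mat]
  rw [map_sum]
  refine Fintype.sum_bijective (fun γ' => γ * γ') (Group.mulLeft_bijective γ) _ _ ?_
  intro γ'
  rw [actJ_mul]
  by_cases h : actJ γ' j' = j
  · rw [if_pos h, if_pos (by rw [h]), act_mul]; rfl
  · rw [if_neg h, if_neg (fun h' => h ((actJ γ).injective h')), map_zero]

end Datum

end Pool.Agent.IsoRep
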