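import Mathlib
import Pool.Agent.IsoRep.System

/-!
# Local form of the equations at the base points
-/

set_option autoImplicit false
set_option linter.unusedSectionVars false

namespace Pool.Agent.IsoRep

open MvPolynomial

lemma X_mem_varIdeal {τ R : Type*} [CommRing R] (s : τ) : (X s : MvPolynomial τ R) ∈ varIdeal τ R :=
  Ideal.subset_span ⟨s, rfl⟩

lemma hom_mem_pow {τ R B : Type*} [CommRing R] [CommRing B] (θ : MvPolynomial τ R →+* B)
    (I : Ideal B) (h : ∀ s, θ (X s) ∈ I) (n : ℕ) (p : MvPolynomial τ R)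
    (hp : p ∈ varIdeal τ R ^ n) : θ p ∈ I ^ n := by
  have h1 : (varIdeal τ R).map θ ≤ I := by
    rw [varIdeal, Ideal.map_span, Ideal.span_le]
    rintro _ ⟨_, ⟨s, rfl⟩, rfl⟩
    exact h s
  have h2 : (varIdeal τ R ^ n).map θ ≤ I ^ n := by
    rw [Ideal.map_pow]
    exact Ideal.pow_right_mono h1 n
  exact h2 (Ideal.mem_map_of_mem θ hp)

namespace Datum

variable {k : Type*} [Field k] {Γ ι Λ D : Type*} [Group Γ] [MulAction Γ Λ] [Fintype D]
    [DecidableEq D] (𝒟 : Datum k Γ ι Λ D) [Fintype ι] [DecidableEq ι] [Fintype Γ] [DecidableEq Λ]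

/-- Relabelling of the ambient coordinates at the `i`-th base point. -/
def locIdx (i : ι) : Amb ι Λ D → D ⊕ Eqs ι Λ D
  | Sum.inl (none, a) => Sum.inr (Sum.inl (i, a))
  | Sum.inl (some j, a) => if j = i then Sum.inl a else Sum.inr (Sum.inl (j, a))
  | Sum.inr l => Sum.inr (Sum.inr l)

/-- Coordinates of the `i`-th base point. -/
def pt (S : Type*) [CommRing S] (i : ι) : Amb ι Λ D → S
  | Sum.inl _ => 0
  | Sum.inr l => if l = 𝒟.base i then 1 else 0

/-- Local coordinates at the `i`-th base point. -/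
noncomputable def loc (S : Type*) [CommRing S] [Algebra k S] (i : ι) :
    MvPolynomial (Amb ι Λ D) k →ₐ[k] MvPolynomial (D ⊕ Eqs ι Λ D) S :=
  aeval (fun s => X (locIdx i s) + C (𝒟.pt S i s))

section loc

variable (S : Type*) [CommRing S] [Algebra k S] (i : ι)

lemma loc_X (s : Amb ι Λ D) : 𝒟.loc S i (X s) = X (locIdx i s) + C (𝒟.pt S i s) := by
  simp [loc]

lemma loc_C (a : k) : 𝒟.loc S i (C a) = C (algebraMap k S a) := by
  simp [loc, MvPolynomial.algebraMap_apply]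

lemma loc_inl_mem (s : Option ι × D) :
    𝒟.loc S i (X (Sum.inl s)) ∈ varIdeal (D ⊕ Eqs ι Λ D) S := by
  rw [loc_X]
  simp only [pt, map_zero, add_zero]
  exact X_mem_varIdeal _

lemma loc_act_inl_mem (γ : Γ) (s : Option ι × D) :
    𝒟.loc S i (𝒟.act k γ (X (Sum.inl s))) ∈ varIdeal (D ⊕ Eqs ι Λ D) S := by
  rcases s with ⟨_ | j, a⟩
  · rw [act_s]; exact 𝒟.loc_inl_mem S i _
  · rw [act_u, map_sum]
    refine sum_mem fun b _ => ?_
    rw [map_mul]
    exact Ideal.mul_mem_left _ _ (𝒟.loc_inl_mem S i _)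

lemma loc_act_dvar_mem (γ : Γ) (i' : ι) (ja : ι × D) :
    𝒟.loc S i (𝒟.act k γ (dvar i' ja)) ∈ varIdeal (D ⊕ Eqs ι Λ D) S := by
  unfold dvar
  split_ifs
  · exact 𝒟.loc_act_inl_mem S i γ _
  · exact 𝒟.loc_act_inl_mem S i γ _

lemma loc_act_fpoly_mem (γ : Γ) :
    𝒟.loc S i (𝒟.act k γ 𝒟.fpoly) ∈ varIdeal (D ⊕ Eqs ι Λ D) S ^ 2 := by
  rw [fpoly, map_sum, map_sum]
  refine sum_mem fun i' _ => ?_
  rw [map_mul, map_mul]
  refine Ideal.mul_mem_left _ _ ?_
  exact hom_mem_pow (((𝒟.loc S i).comp ((𝒟.act k γ).comp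
    (rename (fun a => Sum.inl (some i', a))))).toRingHom) _ (fun s => by
      change 𝒟.loc S i (𝒟.act k γ (rename _ (X s))) ∈ _
      rw [rename_X]
      exact 𝒟.loc_act_inl_mem S i γ _) 2 _ (𝒟.phi_mem i')

lemma loc_Mat_mem (j j' : Eqs ι Λ D) :
    𝒟.loc S i (𝒟.Mat j j') ∈ varIdeal (D ⊕ Eqs ι Λ D) S ^ 2 := by
  rw [Mat, map_sum]
  refine sum_mem fun γ _ => ?_
  split_ifs
  · exact 𝒟.loc_act_fpoly_mem S i γ
  · rw [map_zero]; exact zero_mem _

/-- Elements of the stabilizer of the base point fix the linear coordinates `D_i`. -/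
lemma act_dvar (γ : Γ) (hγ : γ • 𝒟.base i = 𝒟.base i) (ja : ι × D) :
    𝒟.act k γ (dvar i ja) = dvar i ja := by
  unfold dvar
  split_ifs with h
  · rw [act_s]
  · have hγ' : γ⁻¹ • 𝒟.base i = 𝒟.base i := by rw [inv_smul_eq_iff, hγ]
    rw [act_u, 𝒟.rep_trivial γ⁻¹ i ja.1 hγ' h, Finset.sum_eq_single ja.2]
    · simp
    · intro b _ hb
      rw [Matrix.one_apply_ne (Ne.symm hb)]
      simp
    · simp

lemma loc_dvar (ja : ι × D) : 𝒟.loc S i (dvar i ja) = X (Sum.inr (Sum.inl ja)) := by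
  obtain ⟨j, a⟩ := ja
  unfold dvar
  split_ifs with h
  · rw [loc_X]
    simp only at h
    subst h
    simp [locIdx, pt]
  · rw [loc_X]
    simp only at h
    simp [locIdx, pt, h]

/-- The order of the stabilizer of the `i`-th base point, as a scalar, resp. `±1`. -/
noncomputable def ell (i : ι) : Eqs ι Λ D → k
  | Sum.inl _ => ((Finset.univ.filter (fun γ : Γ => γ • 𝒟.base i = 𝒟.base i)).card : k)
  | Sum.inr l => if l = 𝒟.base i then 1 else -1

lemma ell_ne_zero [CharZero k] (j : Eqs ι Λ D) : 𝒟.ell i j ≠ 0 := by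
  rcases j with ja | l
  · simp only [ell]
    rw [Nat.cast_ne_zero, Finset.card_ne_zero]
    exact ⟨1, by simp⟩
  · simp only [ell]
    split_ifs <;> simp

lemma loc_Phi_mem (j : Eqs ι Λ D) :
    𝒟.loc S i (𝒟.Phi j) - C (algebraMap k S (𝒟.ell i j)) * X (Sum.inr j)
      ∈ varIdeal (D ⊕ Eqs ι Λ D) S ^ 2 := by
  rcases j with ja | l
  · have h1 : C (algebraMap k S (𝒟.ell i (Sum.inl ja))) * X (Sum.inr (Sum.inl ja))
        = ∑ γ : Γ, if γ • 𝒟.base i = 𝒟.base i then
            (X (Sum.inr (Sum.inl ja)) : MvPolynomial (D ⊕ Eqs ι Λ D) S) else 0 := by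
      rw [← Finset.sum_filter, Finset.sum_const]
      simp [ell, nsmul_eq_mul]
    rw [h1]
    simp only [Phi]
    rw [map_sum, ← Finset.sum_sub_distrib]
    refine sum_mem fun γ _ => ?_
    rw [map_sum]
    have h2 : (if γ • 𝒟.base i = 𝒟.base i then
            (X (Sum.inr (Sum.inl ja)) : MvPolynomial (D ⊕ Eqs ι Λ D) S) else 0)
        = ∑ i' : ι, if γ • 𝒟.base i' = 𝒟.base i then
            (X (Sum.inr (Sum.inl ja)) : MvPolynomial (D ⊕ Eqs ι Λ D) S) else 0 := by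
      rw [Finset.sum_eq_single i]
      · intro i' _ hi'
        rw [if_neg]
        intro h
        exact hi' (𝒟.base_inj γ i' i h)
      · simp
    rw [h2, ← Finset.sum_sub_distrib]
    refine sum_mem fun i' _ => ?_
    rw [map_mul, act_x, map_mul, loc_X]
    split_ifs with h
    · obtain rfl := 𝒟.base_inj γ i' i h
      rw [𝒟.act_dvar i' γ h, loc_dvar, h]
      simp only [pt, if_pos, map_one]
      have : (X (locIdx i' (Sum.inr (𝒟.base i'))) + 1) * X (Sum.inr (Sum.inl ja))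
          - X (Sum.inr (Sum.inl ja)) = (X (locIdx i' (Sum.inr (𝒟.base i')))
            * X (Sum.inr (Sum.inl ja)) : MvPolynomial (D ⊕ Eqs ι Λ D) S) := by ring
      rw [this, pow_two]
      exact Ideal.mul_mem_mul (X_mem_varIdeal _) (X_mem_varIdeal _)
    · simp only [pt, if_neg h, map_zero, add_zero, sub_zero]
      rw [pow_two]
      exact Ideal.mul_mem_mul (X_mem_varIdeal _) (𝒟.loc_act_dvar_mem S i γ i' ja)
  · simp only [Phi, map_sub, map_pow, loc_X, pt, ell, locIdx]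
    split_ifs with h
    · have : ((X (Sum.inr (Sum.inr l)) + C 1) ^ 2 - (X (Sum.inr (Sum.inr l)) + C 1)
          - C (algebraMap k S 1) * X (Sum.inr (Sum.inr l)) : MvPolynomial (D ⊕ Eqs ι Λ D) S)
          = X (Sum.inr (Sum.inr l)) ^ 2 := by
        simp only [map_one]; ring
      rw [this]
      exact Ideal.pow_mem_pow (X_mem_varIdeal _) 2
    · have : ((X (Sum.inr (Sum.inr l)) + C 0) ^ 2 - (X (Sum.inr (Sum.inr l)) + C 0)
          - C (algebraMap k S (-1)) * X (Sum.inr (Sum.inr l)) : MvPolynomial (D ⊕ Eqs ι Λ D) S)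
          = X (Sum.inr (Sum.inr l)) ^ 2 := by
        simp only [map_zero, map_neg, map_one]; ring
      rw [this]
      exact Ideal.pow_mem_pow (X_mem_varIdeal _) 2

variable [Fintype Λ]

/-- The `j`-th equation in local coordinates, with parameters `c`. -/
noncomputable def locEq (c : Eqs ι Λ D → S) (j : Eqs ι Λ D) : MvPolynomial (D ⊕ Eqs ι Λ D) S :=
  𝒟.loc S i (𝒟.Phi j) - ∑ j', 𝒟.loc S i (𝒟.Mat j j') * C (c j')

/-- The contracting system whose solution is the formal point at the `i`-th base point. -/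
noncomputable def sysP (c : Eqs ι Λ D → S) (j : Eqs ι Λ D) : MvPolynomial (D ⊕ Eqs ι Λ D) S :=
  X (Sum.inr j) - C (algebraMap k S (𝒟.ell i j)⁻¹) * 𝒟.locEq S i c j

lemma sysP_mem [CharZero k] (c : Eqs ι Λ D → S) (j : Eqs ι Λ D) :
    𝒟.sysP S i c j ∈ varIdeal (D ⊕ Eqs ι Λ D) S ^ 2 := by
  have h1 : (C (algebraMap k S (𝒟.ell i j)⁻¹) * C (algebraMap k S (𝒟.ell i j))
      : MvPolynomial (D ⊕ Eqs ι Λ D) S) = 1 := by
    rw [← map_mul, ← map_mul, inv_mul_cancel₀ (𝒟.ell_ne_zero i j), map_one, map_one]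
  have h2 : 𝒟.sysP S i c j = - C (algebraMap k S (𝒟.ell i j)⁻¹) *
      ((𝒟.loc S i (𝒟.Phi j) - C (algebraMap k S (𝒟.ell i j)) * X (Sum.inr j))
        - ∑ j', 𝒟.loc S i (𝒟.Mat j j') * C (c j')) := by
    simp only [sysP, locEq]
    linear_combination (-X (Sum.inr j)) * h1
  rw [h2]
  refine Ideal.mul_mem_left _ _ (sub_mem (𝒟.loc_Phi_mem S i j) (sum_mem fun j' _ => ?_))
  exact Ideal.mul_mem_right _ _ (𝒟.loc_Mat_mem S i j j')

lemma ev_locEq [CharZero k] (c : Eqs ι Λ D → S) {ξ : Eqs ι Λ D → MvPowerSeries D S}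
    (h : IsSol (𝒟.sysP S i c) ξ) (j : Eqs ι Λ D) : ev ξ (𝒟.locEq S i c j) = 0 := by
  have h1 := h.2 j
  rw [sysP, map_sub, ev_inr, map_mul] at h1
  have h2 : ev ξ (C (algebraMap k S (𝒟.ell i j)⁻¹)) * ev ξ (𝒟.locEq S i c j) = 0 := by
    linear_combination h1
  have h3 : ev ξ (C (algebraMap k S (𝒟.ell i j))) * ev ξ (C (algebraMap k S (𝒟.ell i j)⁻¹)) = 1 := by
    rw [← map_mul, ← map_mul, ← map_mul, mul_inv_cancel₀ (𝒟.ell_ne_zero i j), map_one, map_one,
      map_one]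
  calc ev ξ (𝒟.locEq S i c j)
      = (ev ξ (C (algebraMap k S (𝒟.ell i j))) * ev ξ (C (algebraMap k S (𝒟.ell i j)⁻¹)))
        * ev ξ (𝒟.locEq S i c j) := by rw [h3, one_mul]
    _ = 0 := by rw [mul_assoc, h2, mul_zero]

end loc

section map

variable {S S' : Type*} [CommRing S] [Algebra k S] [CommRing S'] [Algebra k S'] (i : ι)
  (g : S →ₐ[k] S')

lemma map_loc (p : MvPolynomial (Amb ι Λ D) k) :
    MvPolynomial.map (g : S →+* S') (𝒟.loc S i p) = 𝒟.loc S' i p := by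
  induction p using MvPolynomial.induction_on with
  | C a => simp
  | add p q hp hq => simp only [map_add, hp, hq]
  | mul_X p n hp =>
    simp only [map_mul, hp, loc_X, map_add, map_X, map_C]
    congr 3
    rcases n with s | l
    · simp [pt]
    · simp only [pt]
      split_ifs <;> simp

lemma map_sysP [Fintype Λ] (c : Eqs ι Λ D → S) (j : Eqs ι Λ D) :
    MvPolynomial.map (g : S →+* S') (𝒟.sysP S i c j) = 𝒟.sysP S' i (g ∘ c) j := by
  simp only [sysP, locEq, map_sub, map_mul, map_sum, 𝒟.map_loc i g, map_C, map_X]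
  simp

end map

end Datum

end Pool.Agent.IsoRep
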