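import Mathlib
import Pool.Agent.IsoRep.Local

/-!
# The formal points
-/

set_option autoImplicit false
set_option linter.unusedSectionVars false

namespace Pool.Agent.IsoRep

open MvPolynomial

namespace Datum

variable {k : Type*} [Field k] {Γ ι Λ D : Type*} [Group Γ] [MulAction Γ Λ] [Fintype D]
    [DecidableEq D] (𝒟 : Datum k Γ ι Λ D) [Fintype ι] [DecidableEq ι] [Fintype Γ] [DecidableEq Λ]
    [Fintype Λ]

/-! ### The specialisation `c = 0` -/

/-- Values of the ambient coordinates on the `i`-th linear germ. -/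
noncomputable def etaVal (i : ι) : Amb ι Λ D → MvPolynomial D k
  | Sum.inl (none, _) => 0
  | Sum.inl (some j, a) => if j = i then X a else 0
  | Sum.inr l => if l = 𝒟.base i then 1 else 0

/-- Restriction to the `i`-th linear germ. -/
noncomputable def eta (i : ι) : MvPolynomial (Amb ι Λ D) k →ₐ[k] MvPolynomial D k :=
  aeval (𝒟.etaVal i)

lemma ev_zero_loc (i : ι) (p : MvPolynomial (Amb ι Λ D) k) :
    ev (0 : Eqs ι Λ D → MvPowerSeries D k) (𝒟.loc k i p) = (𝒟.eta i p : MvPowerSeries D k) := by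
  induction p using MvPolynomial.induction_on with
  | C a =>
    rw [loc_C]
    simp [eta, ev, MvPowerSeries.algebraMap_apply]
  | add p q hp hq => rw [map_add, map_add, hp, hq, map_add, MvPolynomial.coe_add]
  | mul_X p n hp =>
    rw [map_mul, map_mul, hp, map_mul, MvPolynomial.coe_mul]
    congr 1
    rw [loc_X, map_add]
    rcases n with ⟨_ | j, a⟩ | l
    · simp [eta, etaVal, locIdx, pt]
    · by_cases h : j = i
      · simp [eta, etaVal, locIdx, pt, h]
      · simp [eta, etaVal, locIdx, pt, h]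
    · by_cases h : l = 𝒟.base i
      · simp [eta, etaVal, locIdx, pt, h]
      · simp [eta, etaVal, locIdx, pt, h]

lemma eta_dvar (i : ι) (ja : ι × D) : 𝒟.eta i (dvar i ja) = 0 := by
  unfold dvar
  split_ifs with h
  · simp [eta, etaVal]
  · simp [eta, etaVal, h]

lemma eta_x (i : ι) (l : Λ) : 𝒟.eta i (X (Sum.inr l)) = if l = 𝒟.base i then 1 else 0 := by
  simp [eta, etaVal]

lemma eta_Phi (i : ι) (j : Eqs ι Λ D) : 𝒟.eta i (𝒟.Phi j) = 0 := by
  rcases j with ja | l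
  · simp only [Phi]
    rw [map_sum]
    refine Finset.sum_eq_zero fun γ _ => ?_
    rw [map_sum]
    refine Finset.sum_eq_zero fun i' _ => ?_
    rw [map_mul, map_mul, act_x, eta_x]
    split_ifs with h
    · obtain rfl := 𝒟.base_inj γ i' i h
      rw [𝒟.act_dvar i' γ h, eta_dvar, mul_zero]
    · rw [zero_mul]
  · simp only [Phi]
    rw [map_sub, map_pow, eta_x]
    split_ifs <;> simp

lemma eval_eta_act_rename (i : ι) (γ : Γ) (p : MvPolynomial D k) :
    eval (𝒟.vec i) (𝒟.eta i (𝒟.act k γ (rename (fun a => Sum.inl (some i, a)) p)))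
      = eval ((𝒟.rep i γ⁻¹).mulVec (𝒟.vec i)) p := by
  induction p using MvPolynomial.induction_on with
  | C a => simp
  | add p q hp hq => simp only [map_add, hp, hq]
  | mul_X p n hp =>
    simp only [map_mul, hp, rename_X, act_u, map_sum, eval_X]
    congr 1
    rw [Matrix.mulVec, dotProduct]
    refine Finset.sum_congr rfl fun b _ => ?_
    simp [eta, etaVal]

lemma eval_eta_Mat (i : ι) (j j' : Eqs ι Λ D) :
    eval (𝒟.vec i) (𝒟.eta i (𝒟.Mat j j')) = if j = j' then 1 else 0 := by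
  have : DecidableEq Γ := Classical.decEq Γ
  rw [Mat, map_sum, map_sum]
  have h1 : ∀ γ : Γ, eval (𝒟.vec i) (𝒟.eta i (𝒟.act k γ 𝒟.fpoly)) = if γ = 1 then 1 else 0 := by
    intro γ
    rw [fpoly, map_sum, map_sum, map_sum]
    have h2 : ∀ i' : ι, eval (𝒟.vec i) (𝒟.eta i (𝒟.act k γ (X (Sum.inr (𝒟.base i')) *
        rename (fun a => Sum.inl (some i', a)) (𝒟.phi i'))))
        = if γ = 1 ∧ i' = i then 1 else 0 := by
      intro i'
      rw [map_mul, map_mul, map_mul, act_x, eta_x]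
      by_cases h : γ • 𝒟.base i' = 𝒟.base i
      · obtain rfl := 𝒟.base_inj γ i' i h
        rw [if_pos h, map_one, one_mul, eval_eta_act_rename]
        by_cases hγ : γ = 1
        · subst hγ
          simp [𝒟.phi_one]
        · have h3 : γ⁻¹ • 𝒟.base i' = 𝒟.base i' := by rw [inv_smul_eq_iff, h]
          rw [𝒟.phi_zero i' γ⁻¹ h3 (by simpa using hγ), if_neg]
          simp [hγ]
      · rw [if_neg h, map_zero, zero_mul, if_neg]
        rintro ⟨rfl, rfl⟩
        exact h (one_smul _ _)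
    rw [Finset.sum_congr rfl fun i' _ => h2 i']
    by_cases hγ : γ = 1
    · simp [hγ]
    · simp [hγ]
  have h4 : ∀ γ : Γ, eval (𝒟.vec i) (𝒟.eta i (if actJ γ j' = j then 𝒟.act k γ 𝒟.fpoly else 0))
      = if γ = 1 then (if j = j' then 1 else 0) else 0 := by
    intro γ
    by_cases h : actJ γ j' = j
    · rw [if_pos h, h1]
      by_cases hγ : γ = 1
      · subst hγ
        have : j = j' := by
          rw [← h]
          rcases j' with ja | l
          · rfl
          · simp [actJ]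
        rw [if_pos rfl, if_pos rfl, if_pos this]
      · rw [if_neg hγ, if_neg hγ]
    · rw [if_neg h, map_zero, map_zero]
      by_cases hγ : γ = 1
      · subst hγ
        have : ¬ j = j' := by
          intro hj
          apply h
          rw [hj]
          rcases j' with ja | l
          · rfl
          · simp [actJ]
        rw [if_pos rfl, if_neg this]
      · rw [if_neg hγ]
  rw [Finset.sum_congr rfl fun γ _ => h4 γ]
  simp

lemma eta_det_ne_zero (i : ι) : 𝒟.eta i (𝒟.Mat).det ≠ 0 := by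
  intro h
  have h1 : eval (𝒟.vec i) (𝒟.eta i (𝒟.Mat).det) = 1 := by
    have h2 : eval (𝒟.vec i) (𝒟.eta i (𝒟.Mat).det)
        = ((𝒟.Mat).map (fun p => eval (𝒟.vec i) (𝒟.eta i p))).det := by
      have := RingHom.map_det ((eval (𝒟.vec i)).comp (𝒟.eta i).toRingHom) 𝒟.Mat
      exact this
    rw [h2]
    have h3 : (𝒟.Mat).map (fun p => eval (𝒟.vec i) (𝒟.eta i p)) = 1 := by
      ext j j'
      rw [Matrix.map_apply, eval_eta_Mat, Matrix.one_apply]
    rw [h3, Matrix.det_one]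
  rw [h, map_zero] at h1
  exact zero_ne_one h1

/-! ### The formal points -/

variable [CharZero k] {Ω : Type*} [Field Ω] [Algebra k Ω]

/-- The universal solution, with indeterminate parameters. -/
noncomputable def xiU (i : ι) : Eqs ι Λ D → MvPowerSeries D (MvPolynomial (Eqs ι Λ D) k) :=
  limSol (𝒟.sysP (MvPolynomial (Eqs ι Λ D) k) i X)

lemma isSol_xiU (i : ι) : IsSol (𝒟.sysP (MvPolynomial (Eqs ι Λ D) k) i X) (𝒟.xiU i) :=
  isSol_limSol (𝒟.sysP_mem _ i X)

/-- The solution with parameters `c`. -/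
noncomputable def xi (c : Eqs ι Λ D → Ω) (i : ι) : Eqs ι Λ D → MvPowerSeries D Ω :=
  fun j => MvPowerSeries.map (aeval c : MvPolynomial (Eqs ι Λ D) k →ₐ[k] Ω).toRingHom (𝒟.xiU i j)

lemma isSol_xi (c : Eqs ι Λ D → Ω) (i : ι) : IsSol (𝒟.sysP Ω i c) (𝒟.xi c i) := by
  have h := (𝒟.isSol_xiU i).map (aeval c : MvPolynomial (Eqs ι Λ D) k →ₐ[k] Ω).toRingHom
  have h1 : (fun j => MvPolynomial.map (aeval c : MvPolynomial (Eqs ι Λ D) k →ₐ[k] Ω).toRingHom
      (𝒟.sysP (MvPolynomial (Eqs ι Λ D) k) i X j)) = 𝒟.sysP Ω i c := by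
    funext j
    have h2 : (⇑(aeval c : MvPolynomial (Eqs ι Λ D) k →ₐ[k] Ω)) ∘ X = c := by
      funext j; simp
    conv_rhs => rw [← h2]
    exact 𝒟.map_sysP i (aeval c : MvPolynomial (Eqs ι Λ D) k →ₐ[k] Ω) X j
  rw [h1] at h
  exact h

lemma isSol_zero (i : ι) : IsSol (𝒟.sysP k i 0) (0 : Eqs ι Λ D → MvPowerSeries D k) := by
  refine ⟨fun j => by simp, fun j => ?_⟩
  rw [sysP, locEq, map_sub, ev_inr, map_mul, map_sub, ev_zero_loc, eta_Phi]
  simp

lemma map_zero_xiU (i : ι) :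
    (fun j => MvPowerSeries.map (aeval (0 : Eqs ι Λ D → k)
      : MvPolynomial (Eqs ι Λ D) k →ₐ[k] k).toRingHom (𝒟.xiU i j)) = 0 := by
  have h := 𝒟.isSol_xi (0 : Eqs ι Λ D → k) i
  exact h.unique (𝒟.sysP_mem k i 0) (𝒟.isSol_zero i)

/-- The formal point at the `i`-th base point. -/
noncomputable def zpt (c : Eqs ι Λ D → Ω) (i : ι) : Amb ι Λ D → MvPowerSeries D Ω :=
  fun s => ev (𝒟.xi c i) (X (locIdx i s) + C (𝒟.pt Ω i s))

lemma aeval_zpt (c : Eqs ι Λ D → Ω) (i : ι) (p : MvPolynomial (Amb ι Λ D) k) :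
    aeval (𝒟.zpt c i) p = ev (𝒟.xi c i) (𝒟.loc Ω i p) := by
  induction p using MvPolynomial.induction_on with
  | C a =>
    rw [loc_C]
    simp [ev, MvPowerSeries.algebraMap_apply]
  | add p q hp hq => simp only [map_add, hp, hq]
  | mul_X p n hp => simp only [map_mul, hp, aeval_X, loc_X, zpt]

lemma zpt_eqn (c : Eqs ι Λ D → Ω) (i : ι) (j : Eqs ι Λ D) :
    aeval (𝒟.zpt c i) (𝒟.Phi j)
      = ∑ j', aeval (𝒟.zpt c i) (𝒟.Mat j j') * algebraMap Ω (MvPowerSeries D Ω) (c j') := by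
  have h := 𝒟.ev_locEq Ω i c (𝒟.isSol_xi c i) j
  rw [locEq, map_sub, sub_eq_zero, map_sum] at h
  rw [aeval_zpt, h]
  refine Finset.sum_congr rfl fun j' _ => ?_
  rw [map_mul, aeval_zpt]
  congr 1
  exact (ev (𝒟.xi c i)).commutes (c j')

lemma zpt_det (c : Eqs ι Λ D → Ω) (hc : AlgebraicIndependent k c) (i : ι) :
    aeval (𝒟.zpt c i) (𝒟.Mat).det ≠ 0 := by
  -- nonvanishing for indeterminate parameters
  have h1 : ev (𝒟.xiU i) (𝒟.loc (MvPolynomial (Eqs ι Λ D) k) i (𝒟.Mat).det) ≠ 0 := by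
    intro h0
    have h2 := congrArg (MvPowerSeries.map (aeval (0 : Eqs ι Λ D → k)
      : MvPolynomial (Eqs ι Λ D) k →ₐ[k] k).toRingHom) h0
    rw [map_ev, map_zero] at h2
    have h3 := 𝒟.map_loc i (aeval (0 : Eqs ι Λ D → k)
      : MvPolynomial (Eqs ι Λ D) k →ₐ[k] k) (𝒟.Mat).det
    have h4 : MvPolynomial.map (aeval (0 : Eqs ι Λ D → k)
      : MvPolynomial (Eqs ι Λ D) k →ₐ[k] k).toRingHom
        (𝒟.loc (MvPolynomial (Eqs ι Λ D) k) i (𝒟.Mat).det) = 𝒟.loc k i (𝒟.Mat).det := h3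
    rw [h4, 𝒟.map_zero_xiU i, ev_zero_loc] at h2
    apply 𝒟.eta_det_ne_zero i
    exact MvPolynomial.coe_injective D k (by rw [h2, MvPolynomial.coe_zero])
  intro h0
  apply h1
  rw [aeval_zpt] at h0
  have h5 := map_ev (aeval c : MvPolynomial (Eqs ι Λ D) k →ₐ[k] Ω).toRingHom (𝒟.xiU i)
    (𝒟.loc (MvPolynomial (Eqs ι Λ D) k) i (𝒟.Mat).det)
  have h6 : MvPolynomial.map (aeval c : MvPolynomial (Eqs ι Λ D) k →ₐ[k] Ω).toRingHom
        (𝒟.loc (MvPolynomial (Eqs ι Λ D) k) i (𝒟.Mat).det) = 𝒟.loc Ω i (𝒟.Mat).det :=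
    𝒟.map_loc i (aeval c : MvPolynomial (Eqs ι Λ D) k →ₐ[k] Ω) (𝒟.Mat).det
  rw [h6] at h5
  have h7 : MvPowerSeries.map (aeval c : MvPolynomial (Eqs ι Λ D) k →ₐ[k] Ω).toRingHom
      (ev (𝒟.xiU i) (𝒟.loc (MvPolynomial (Eqs ι Λ D) k) i (𝒟.Mat).det)) = 0 := by
    rw [h5]; exact h0
  refine MvPowerSeries.ext fun m => ?_
  rw [map_zero]
  have h8 := congrArg (MvPowerSeries.coeff m) h7
  rw [MvPowerSeries.coeff_map, map_zero] at h8
  exact (algebraicIndependent_iff_injective_aeval.mp hc) (h8.trans (map_zero _).symm)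

/-- Coefficients in the field generated by the parameters. -/
lemma zpt_coeffs (c : Eqs ι Λ D → Ω) (i : ι) (s : Amb ι Λ D) (m : D →₀ ℕ) :
    MvPowerSeries.coeff m (𝒟.zpt c i s) ∈ Kc k c := by
  have h1 : 𝒟.zpt c i s = MvPowerSeries.map
      (aeval c : MvPolynomial (Eqs ι Λ D) k →ₐ[k] Ω).toRingHom
      (ev (𝒟.xiU i) (X (locIdx i s) + C (𝒟.pt (MvPolynomial (Eqs ι Λ D) k) i s))) := by
    rw [map_ev]
    simp only [zpt, map_add, map_X, map_C]
    congr 2
    congr 1
    rcases s with s | l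
    · simp [pt]
    · simp only [pt]
      split_ifs <;> simp
  rw [h1, MvPowerSeries.coeff_map]
  have h2 : ∀ r : MvPolynomial (Eqs ι Λ D) k, aeval c r ∈ Kc k c := by
    intro r
    refine IntermediateField.algebra_adjoin_le_adjoin k _ ?_
    rw [Algebra.adjoin_range_eq_range_aeval]
    exact ⟨r, rfl⟩
  exact h2 _

end Datum

end Pool.Agent.IsoRep
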