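import Mathlib
import Pool.Agent.IsoRep.Points

/-!
# All formal points and their translates have the same kernel
-/

set_option autoImplicit false
set_option linter.unusedSectionVars false

namespace Pool.Agent.IsoRep

open MvPolynomial

namespace Datum

variable {k : Type*} [Field k] {Γ ι Λ D : Type*} [Group Γ] [MulAction Γ Λ] [Fintype D]
    [DecidableEq D] (𝒟 : Datum k Γ ι Λ D) [Fintype ι] [DecidableEq ι] [Fintype Γ] [DecidableEq Λ]
    [Fintype Λ] {Ω : Type*} [Field Ω] [Algebra k Ω]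

lemma act_act (S : Type*) [CommRing S] [Algebra k S] (γ γ' : Γ)
    (p : MvPolynomial (Amb ι Λ D) S) : 𝒟.act S γ (𝒟.act S γ' p) = 𝒟.act S (γ * γ') p := by
  rw [act_mul]; rfl

/-- Formal points of the variety with parameters `c`. -/
structure IsPoint (c : Eqs ι Λ D → Ω) (z : Amb ι Λ D → MvPowerSeries D Ω) : Prop where
  eqn : ∀ j, aeval z (𝒟.Phi j) = ∑ j', aeval z (𝒟.Mat j j') * algebraMap Ω _ (c j')
  det : aeval z (𝒟.Mat).det ≠ 0
  lin : ∀ a : D, ∃ p : MvPolynomial (Amb ι Λ D) k, aeval z p = MvPowerSeries.X a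
  coeffs : ∀ s m, MvPowerSeries.coeff m (z s) ∈ Kc k c

lemma IsPoint.good {c : Eqs ι Λ D → Ω} {z : Amb ι Λ D → MvPowerSeries D Ω}
    (h : 𝒟.IsPoint c z) :
    Good c (fun j => ((𝒟.Mat).adjugate.mulVec 𝒟.Phi) j) (𝒟.Mat).det z where
  det_ne := h.det
  eqn := by
    intro j
    rw [Matrix.mulVec, dotProduct, map_sum]
    have h1 : ∀ l, aeval z ((𝒟.Mat).adjugate j l * 𝒟.Phi l)
        = ∑ j', aeval z ((𝒟.Mat).adjugate j l * 𝒟.Mat l j') * algebraMap Ω _ (c j') := by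
      intro l
      rw [map_mul, h.eqn, Finset.mul_sum]
      refine Finset.sum_congr rfl fun j' _ => ?_
      rw [map_mul, mul_assoc]
    rw [Finset.sum_congr rfl fun l _ => h1 l, Finset.sum_comm]
    have h2 : ∀ j', ∑ l, aeval z ((𝒟.Mat).adjugate j l * 𝒟.Mat l j') * algebraMap Ω _ (c j')
        = (if j = j' then aeval z (𝒟.Mat).det else 0) * algebraMap Ω _ (c j') := by
      intro j'
      rw [← Finset.sum_mul, ← map_sum]
      congr 1
      have h3 : ∑ l, (𝒟.Mat).adjugate j l * 𝒟.Mat l j' = ((𝒟.Mat).adjugate * 𝒟.Mat) j j' := by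
        rw [Matrix.mul_apply]
      rw [h3, Matrix.adjugate_mul, Matrix.smul_apply, Matrix.one_apply]
      split_ifs <;> simp
    rw [Finset.sum_congr rfl fun j' _ => h2 j']
    simp
  lin := h.lin
  coeffs := h.coeffs

/-- Polynomials over `k` evaluated at a point with coefficients in `k(c)` have coefficients in
`k(c)`. -/
lemma coeff_aeval_mem {c : Eqs ι Λ D → Ω} {z : Amb ι Λ D → MvPowerSeries D Ω}
    (h : ∀ s m, MvPowerSeries.coeff m (z s) ∈ Kc k c) (p : MvPolynomial (Amb ι Λ D) k)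
    (m : D →₀ ℕ) : MvPowerSeries.coeff m (aeval z p) ∈ Kc k c := by
  induction p using MvPolynomial.induction_on generalizing m with
  | C a =>
    rw [algHom_C, MvPowerSeries.algebraMap_apply, MvPowerSeries.coeff_C]
    split_ifs
    · exact (Kc k c).algebraMap_mem a
    · exact zero_mem _
  | add p q hp hq => rw [map_add, map_add]; exact add_mem (hp m) (hq m)
  | mul_X p n hp =>
    rw [map_mul, aeval_X, MvPowerSeries.coeff_mul]
    exact sum_mem fun x _ => mul_mem (hp _) (h _ _)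

/-- The translate of a formal point. -/
noncomputable def trans (γ : Γ) (z : Amb ι Λ D → MvPowerSeries D Ω) :
    Amb ι Λ D → MvPowerSeries D Ω := fun s => aeval z (𝒟.act k γ (X s))

lemma aeval_trans (γ : Γ) (z : Amb ι Λ D → MvPowerSeries D Ω)
    (p : MvPolynomial (Amb ι Λ D) k) : aeval (𝒟.trans γ z) p = aeval z (𝒟.act k γ p) := by
  induction p using MvPolynomial.induction_on with
  | C a => simp
  | add p q hp hq => simp only [map_add, hp, hq]
  | mul_X p n hp => simp only [map_mul, hp, aeval_X, trans]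

lemma aeval_trans_ext (γ : Γ) (z : Amb ι Λ D → MvPowerSeries D Ω)
    (p : MvPolynomial (Amb ι Λ D) Ω) : aeval (𝒟.trans γ z) p = aeval z (𝒟.act Ω γ p) := by
  induction p using MvPolynomial.induction_on with
  | C a => simp
  | add p q hp hq => simp only [map_add, hp, hq]
  | mul_X p n hp =>
    simp only [map_mul, hp, aeval_X, trans]
    congr 1
    have h1 : (X n : MvPolynomial (Amb ι Λ D) Ω)
        = MvPolynomial.map ((Algebra.ofId k Ω : k →ₐ[k] Ω) : k →+* Ω) (X n) := by simp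
    rw [h1, 𝒟.act_map k (Algebra.ofId k Ω) γ (X n)]
    exact (MvPolynomial.aeval_map_algebraMap Ω z _).symm

lemma IsPoint.trans {c : Eqs ι Λ D → Ω} {z : Amb ι Λ D → MvPowerSeries D Ω}
    (h : 𝒟.IsPoint c z) (γ : Γ) : 𝒟.IsPoint c (𝒟.trans γ z) where
  eqn := by
    intro j
    rw [aeval_trans, act_Phi, h.eqn]
    refine Finset.sum_congr rfl fun j' _ => ?_
    rw [aeval_trans, act_Mat]
  det := by
    have h1 : 𝒟.act k γ (𝒟.Mat).det = ((𝒟.Mat).submatrix (actJ γ) id).det := by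
      have := AlgHom.map_det (𝒟.act k γ) 𝒟.Mat
      rw [this]
      congr 1
      ext1 j j'
      simp [act_Mat]
    rw [aeval_trans, h1, Matrix.det_permute, map_mul]
    refine mul_ne_zero ?_ h.det
    rw [map_intCast]
    rcases Int.units_eq_one_or (Equiv.Perm.sign (actJ γ : Equiv.Perm (Eqs ι Λ D))) with hs | hs
    · rw [hs]; simp
    · rw [hs]; simp
  lin := by
    intro a
    obtain ⟨p, hp⟩ := h.lin a
    refine ⟨𝒟.act k γ⁻¹ p, ?_⟩
    rw [aeval_trans, act_act, mul_inv_cancel, act_one, AlgHom.id_apply, hp]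
  coeffs := fun s m => coeff_aeval_mem h.coeffs _ m

lemma card_amb : Nat.card (Amb ι Λ D) = Nat.card D + Nat.card (Eqs ι Λ D) := by
  simp only [Nat.card_eq_fintype_card, Fintype.card_sum, Fintype.card_prod, Fintype.card_option]
  ring

lemma IsPoint.ker_le {c : Eqs ι Λ D → Ω} (hc : AlgebraicIndependent k c)
    {z z' : Amb ι Λ D → MvPowerSeries D Ω} (h : 𝒟.IsPoint c z) (h' : 𝒟.IsPoint c z')
    (f : MvPolynomial (Amb ι Λ D) Ω) (hf : aeval z f = 0) : aeval z' f = 0 :=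
  h.good.ker_le card_amb hc h'.good f hf

variable [CharZero k]

lemma zpt_u (c : Eqs ι Λ D → Ω) (i : ι) (a : D) :
    𝒟.zpt c i (Sum.inl (some i, a)) = MvPowerSeries.X a := by
  simp [zpt, locIdx, pt]

lemma isPoint_zpt {c : Eqs ι Λ D → Ω} (hc : AlgebraicIndependent k c) (i : ι) :
    𝒟.IsPoint c (𝒟.zpt c i) where
  eqn := 𝒟.zpt_eqn c i
  det := 𝒟.zpt_det c hc i
  lin := fun a => ⟨X (Sum.inl (some i, a)), by rw [aeval_X, zpt_u]⟩
  coeffs := 𝒟.zpt_coeffs c i

/-- The prime ideal of the variety. -/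
noncomputable def P (c : Eqs ι Λ D → Ω) (i₀ : ι) : Ideal (MvPolynomial (Amb ι Λ D) Ω) :=
  RingHom.ker (aeval (𝒟.zpt c i₀) : MvPolynomial (Amb ι Λ D) Ω →ₐ[Ω] MvPowerSeries D Ω)

lemma mem_P_iff {c : Eqs ι Λ D → Ω} (hc : AlgebraicIndependent k c) (i₀ : ι)
    {z : Amb ι Λ D → MvPowerSeries D Ω} (h : 𝒟.IsPoint c z) (f : MvPolynomial (Amb ι Λ D) Ω) :
    f ∈ 𝒟.P c i₀ ↔ aeval z f = 0 := by
  rw [P, RingHom.mem_ker]
  exact ⟨fun h0 => IsPoint.ker_le 𝒟 hc (𝒟.isPoint_zpt hc i₀) h f h0,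
    fun h0 => IsPoint.ker_le 𝒟 hc h (𝒟.isPoint_zpt hc i₀) f h0⟩

lemma act_mem_P {c : Eqs ι Λ D → Ω} (hc : AlgebraicIndependent k c) (i₀ : ι) (γ : Γ)
    (f : MvPolynomial (Amb ι Λ D) Ω) (hf : f ∈ 𝒟.P c i₀) : 𝒟.act Ω γ f ∈ 𝒟.P c i₀ := by
  rw [𝒟.mem_P_iff hc i₀ (𝒟.isPoint_zpt hc i₀), ← aeval_trans_ext,
    ← 𝒟.mem_P_iff hc i₀ ((𝒟.isPoint_zpt hc i₀).trans 𝒟 γ)]
  exact hf

end Datum

end Pool.Agent.IsoRep
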