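import Mathlib
import Pool.Agent.IsoRep.Kernel
import Pool.Agent.IsoRep.Tangent
import Pool.Agent.IsoRep.Dim

/-!
# The affine variety `X^` with its `Γ`-action, its points and their tangent spaces
-/

set_option autoImplicit false
set_option linter.unusedSectionVars false

namespace Pool.Agent.IsoRep

open MvPolynomial

namespace Datum

variable {k : Type*} [Field k] {Γ ι Λ D : Type*} [Group Γ] [MulAction Γ Λ] [Fintype D]
    [DecidableEq D] (𝒟 : Datum k Γ ι Λ D) [Fintype ι] [DecidableEq ι] [Fintype Γ] [DecidableEq Λ]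
    [Fintype Λ] {Ω : Type*} [Field Ω] [Algebra k Ω] [CharZero k]
    {c : Eqs ι Λ D → Ω} (hc : AlgebraicIndependent k c) (i₀ : ι)

instance isDomain_mvPowerSeries {σ R : Type*} [CommRing R] [IsDomain R] :
    IsDomain (MvPowerSeries σ R) := NoZeroDivisors.to_isDomain _

instance P_isPrime (c : Eqs ι Λ D → Ω) (i₀ : ι) : (𝒟.P c i₀).IsPrime :=
  RingHom.ker_isPrime _

/-- The coordinate ring. -/
def Coord (c : Eqs ι Λ D → Ω) (i₀ : ι) := MvPolynomial (Amb ι Λ D) Ω ⧸ 𝒟.P c i₀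

noncomputable instance coordCommRing (c : Eqs ι Λ D → Ω) (i₀ : ι) : CommRing (𝒟.Coord c i₀) :=
  inferInstanceAs (CommRing (MvPolynomial (Amb ι Λ D) Ω ⧸ 𝒟.P c i₀))

noncomputable instance coordAlgebra (c : Eqs ι Λ D → Ω) (i₀ : ι) : Algebra Ω (𝒟.Coord c i₀) :=
  inferInstanceAs (Algebra Ω (MvPolynomial (Amb ι Λ D) Ω ⧸ 𝒟.P c i₀))

instance coordIsDomain (c : Eqs ι Λ D → Ω) (i₀ : ι) : IsDomain (𝒟.Coord c i₀) :=
  inferInstanceAs (IsDomain (MvPolynomial (Amb ι Λ D) Ω ⧸ 𝒟.P c i₀))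

/-- The projection from the polynomial ring. -/
noncomputable def pr (c : Eqs ι Λ D → Ω) (i₀ : ι) :
    MvPolynomial (Amb ι Λ D) Ω →ₐ[Ω] 𝒟.Coord c i₀ := Ideal.Quotient.mkₐ Ω (𝒟.P c i₀)

lemma pr_surjective (c : Eqs ι Λ D → Ω) (i₀ : ι) : Function.Surjective (𝒟.pr c i₀) :=
  Ideal.Quotient.mkₐ_surjective Ω (𝒟.P c i₀)

lemma pr_eq_zero (c : Eqs ι Λ D → Ω) (i₀ : ι) (p : MvPolynomial (Amb ι Λ D) Ω)
    (hp : p ∈ 𝒟.P c i₀) : 𝒟.pr c i₀ p = 0 :=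
  (Ideal.Quotient.eq_zero_iff_mem).mpr hp

lemma pr_C (c : Eqs ι Λ D → Ω) (i₀ : ι) (a : Ω) :
    𝒟.pr c i₀ (C a) = algebraMap Ω _ a := by
  rw [algHom_C]

instance coordFiniteType (c : Eqs ι Λ D → Ω) (i₀ : ι) : Algebra.FiniteType Ω (𝒟.Coord c i₀) :=
  Algebra.FiniteType.of_surjective (𝒟.pr c i₀) (𝒟.pr_surjective c i₀)

/-- Expansion of functions at the `i`-th base point. -/
noncomputable def val (i : ι) : 𝒟.Coord c i₀ →ₐ[Ω] MvPowerSeries D Ω :=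
  Ideal.Quotient.liftₐ (𝒟.P c i₀) (aeval (𝒟.zpt c i))
    (fun f hf => (𝒟.mem_P_iff hc i₀ (𝒟.isPoint_zpt hc i) f).mp hf)

lemma val_pr (i : ι) (p : MvPolynomial (Amb ι Λ D) Ω) :
    𝒟.val hc i₀ i (𝒟.pr c i₀ p) = aeval (𝒟.zpt c i) p := rfl

/-- The action on the coordinate ring. -/
noncomputable def actA (γ : Γ) : 𝒟.Coord c i₀ →ₐ[Ω] 𝒟.Coord c i₀ :=
  Ideal.Quotient.liftₐ (𝒟.P c i₀) ((𝒟.pr c i₀).comp (𝒟.act Ω γ))
    (fun f hf => 𝒟.pr_eq_zero c i₀ _ (𝒟.act_mem_P hc i₀ γ f hf))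

lemma actA_pr (γ : Γ) (p : MvPolynomial (Amb ι Λ D) Ω) :
    𝒟.actA hc i₀ γ (𝒟.pr c i₀ p) = 𝒟.pr c i₀ (𝒟.act Ω γ p) := rfl

attribute [irreducible] Coord

lemma val_injective (i : ι) : Function.Injective (𝒟.val hc i₀ i) := by
  rw [injective_iff_map_eq_zero]
  intro f hf
  obtain ⟨p, rfl⟩ := 𝒟.pr_surjective c i₀ f
  rw [val_pr, ← 𝒟.mem_P_iff hc i₀ (𝒟.isPoint_zpt hc i)] at hf
  exact 𝒟.pr_eq_zero c i₀ _ hf

lemma actA_mul (γ γ' : Γ) (f : 𝒟.Coord c i₀) :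
    𝒟.actA hc i₀ (γ * γ') f = 𝒟.actA hc i₀ γ (𝒟.actA hc i₀ γ' f) := by
  obtain ⟨p, rfl⟩ := 𝒟.pr_surjective c i₀ f
  rw [actA_pr, actA_pr, actA_pr, act_act]

lemma actA_one (f : 𝒟.Coord c i₀) : 𝒟.actA hc i₀ 1 f = f := by
  obtain ⟨p, rfl⟩ := 𝒟.pr_surjective c i₀ f
  rw [actA_pr, act_one, AlgHom.id_apply]

/-- The action of `Γ` on the coordinate ring by algebra automorphisms. -/
noncomputable def actHom : Γ →* (𝒟.Coord c i₀ ≃ₐ[Ω] 𝒟.Coord c i₀) where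
  toFun γ := AlgEquiv.ofAlgHom (𝒟.actA hc i₀ γ) (𝒟.actA hc i₀ γ⁻¹)
    (AlgHom.ext fun f => by
      change 𝒟.actA hc i₀ γ (𝒟.actA hc i₀ γ⁻¹ f) = f
      rw [← actA_mul, mul_inv_cancel, actA_one])
    (AlgHom.ext fun f => by
      change 𝒟.actA hc i₀ γ⁻¹ (𝒟.actA hc i₀ γ f) = f
      rw [← actA_mul, inv_mul_cancel, actA_one])
  map_one' := by
    ext f
    exact 𝒟.actA_one hc i₀ f
  map_mul' γ γ' := by
    ext f
    exact 𝒟.actA_mul hc i₀ γ γ' f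

lemma actHom_pr (γ : Γ) (p : MvPolynomial (Amb ι Λ D) Ω) :
    𝒟.actHom hc i₀ γ (𝒟.pr c i₀ p) = 𝒟.pr c i₀ (𝒟.act Ω γ p) := 𝒟.actA_pr hc i₀ γ p

/-- The constant coefficient as an algebra homomorphism. -/
noncomputable def cc (D Ω : Type*) [Field Ω] : MvPowerSeries D Ω →ₐ[Ω] Ω :=
  { (MvPowerSeries.constantCoeff : MvPowerSeries D Ω →+* Ω) with
    commutes' := fun r => by
      change MvPowerSeries.constantCoeff (algebraMap Ω (MvPowerSeries D Ω) r) = r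
      simp [MvPowerSeries.algebraMap_apply] }

/-- The `i`-th base point. -/
noncomputable def basePt (i : ι) : 𝒟.Coord c i₀ →ₐ[Ω] Ω := (cc D Ω).comp (𝒟.val hc i₀ i)

lemma basePt_pr (i : ι) (p : MvPolynomial (Amb ι Λ D) Ω) :
    𝒟.basePt hc i₀ i (𝒟.pr c i₀ p) = MvPowerSeries.constantCoeff (aeval (𝒟.zpt c i) p) := by
  rw [basePt, AlgHom.comp_apply, val_pr]; rfl

lemma basePt_u (i : ι) (s : Option ι × D) :
    𝒟.basePt hc i₀ i (𝒟.pr c i₀ (X (Sum.inl s))) = 0 := by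
  rw [basePt_pr, aeval_X, zpt]
  rcases s with ⟨_ | j, a⟩
  · simp only [locIdx, pt, map_zero, add_zero, ev_inr]
    exact (𝒟.isSol_xi c i).1 _
  · simp only [locIdx, pt, map_zero, add_zero]
    split_ifs
    · simp
    · rw [ev_inr]
      exact (𝒟.isSol_xi c i).1 _

lemma basePt_x (i : ι) (l : Λ) :
    𝒟.basePt hc i₀ i (𝒟.pr c i₀ (X (Sum.inr l))) = if l = 𝒟.base i then 1 else 0 := by
  rw [basePt_pr, aeval_X, zpt]
  simp only [locIdx, pt, map_add, ev_inr]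
  rw [(𝒟.isSol_xi c i).1 _, zero_add]
  split_ifs <;> simp [ev]

/-- Local coordinates on the coordinate ring. -/
noncomputable def mkloc (i : ι) : MvPolynomial (D ⊕ Eqs ι Λ D) Ω →ₐ[Ω] 𝒟.Coord c i₀ :=
  aeval (fun s => match s with
    | Sum.inl a => 𝒟.pr c i₀ (X (Sum.inl (some i, a)))
    | Sum.inr (Sum.inl ja) => 𝒟.pr c i₀ (MvPolynomial.map (algebraMap k Ω) (dvar i ja))
    | Sum.inr (Sum.inr l) => 𝒟.pr c i₀ (X (Sum.inr l) - C (𝒟.pt Ω i (Sum.inr l))))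

lemma mkloc_idx (i : ι) (s : Amb ι Λ D) :
    𝒟.mkloc i₀ i (X (locIdx i s)) = 𝒟.pr c i₀ (X s - C (𝒟.pt Ω i s)) := by
  rcases s with ⟨_ | j, a⟩ | l
  · simp [mkloc, locIdx, pt, dvar]
  · by_cases h : j = i
    · subst h
      simp [mkloc, locIdx, pt]
    · simp [mkloc, locIdx, pt, h, dvar]
  · simp [mkloc, locIdx]

lemma mkloc_loc (i : ι) (p : MvPolynomial (Amb ι Λ D) k) :
    𝒟.mkloc i₀ i (𝒟.loc Ω i p) = 𝒟.pr c i₀ (MvPolynomial.map (algebraMap k Ω) p) := by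
  induction p using MvPolynomial.induction_on with
  | C a => rw [loc_C, algHom_C, map_C, pr_C]
  | add p q hp hq => simp only [map_add, hp, hq]
  | mul_X p n hp =>
    have h1 : 𝒟.mkloc i₀ i (C (𝒟.pt Ω i n)) = 𝒟.pr c i₀ (C (𝒟.pt Ω i n)) := by
      rw [algHom_C, pr_C]
    rw [map_mul, map_mul, hp, loc_X, map_add, mkloc_idx, map_mul, map_mul, MvPolynomial.map_X, h1,
      map_sub, sub_add_cancel]

lemma val_mkloc (i : ι) (p : MvPolynomial (D ⊕ Eqs ι Λ D) Ω) :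
    𝒟.val hc i₀ i (𝒟.mkloc i₀ i p) = ev (𝒟.xi c i) p := by
  induction p using MvPolynomial.induction_on with
  | C a => simp [ev]
  | add p q hp hq => simp only [map_add, hp, hq]
  | mul_X p n hp =>
    rw [map_mul, map_mul, hp, map_mul]
    congr 1
    have hidx : ∀ s : Amb ι Λ D, 𝒟.val hc i₀ i (𝒟.mkloc i₀ i (X (locIdx i s)))
        = ev (𝒟.xi c i) (X (locIdx i s)) := by
      intro s
      rw [mkloc_idx, val_pr, map_sub, aeval_X, zpt, map_add]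
      simp [ev]
    have hsurj : ∃ s : Amb ι Λ D, locIdx i s = n := by
      rcases n with a | ⟨j, a⟩ | l
      · exact ⟨Sum.inl (some i, a), by simp [locIdx]⟩
      · by_cases h : j = i
        · exact ⟨Sum.inl (none, a), by simp [locIdx, h]⟩
        · exact ⟨Sum.inl (some j, a), by simp [locIdx, h]⟩
      · exact ⟨Sum.inr l, rfl⟩
    obtain ⟨s, rfl⟩ := hsurj
    exact hidx s

end Datum

end Pool.Agent.IsoRep
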