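import Mathlib
import Pool.Agent.IsoRep.Variety

/-!
# Tangent spaces of the variety at the base points, and its dimension
-/

set_option autoImplicit false
set_option linter.unusedSectionVars false

namespace Pool.Agent.IsoRep

open MvPolynomial

lemma coeff_single_mul {D Ω : Type*} [CommRing Ω] (f g : MvPowerSeries D Ω) (a : D) :
    MvPowerSeries.coeff (Finsupp.single a 1) (f * g)
      = MvPowerSeries.constantCoeff f * MvPowerSeries.coeff (Finsupp.single a 1) g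
        + MvPowerSeries.constantCoeff g * MvPowerSeries.coeff (Finsupp.single a 1) f := by
  classical
  rw [MvPowerSeries.coeff_mul, Finsupp.antidiagonal_single]
  simp [Finset.Nat.antidiagonal_succ, mul_comm]

namespace Datum

variable {k : Type*} [Field k] {Γ ι Λ D : Type*} [Group Γ] [MulAction Γ Λ] [Fintype D]
    [DecidableEq D] (𝒟 : Datum k Γ ι Λ D) [Fintype ι] [DecidableEq ι] [Fintype Γ] [DecidableEq Λ]
    [Fintype Λ] {Ω : Type*} [Field Ω] [Algebra k Ω] [CharZero k]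
    {c : Eqs ι Λ D → Ω} (hc : AlgebraicIndependent k c) (i₀ : ι)

/-- The tangent vector with coordinates `w` at the `i`-th base point. -/
noncomputable def tv (i : ι) (w : D → Ω) : 𝒟.Coord c i₀ →ₗ[Ω] Ω :=
  (∑ a, w a • (MvPowerSeries.coeff (Finsupp.single a 1) : MvPowerSeries D Ω →ₗ[Ω] Ω)).comp
    (𝒟.val hc i₀ i).toLinearMap

lemma tv_apply (i : ι) (w : D → Ω) (f : 𝒟.Coord c i₀) :
    𝒟.tv hc i₀ i w f = ∑ a, w a * MvPowerSeries.coeff (Finsupp.single a 1) (𝒟.val hc i₀ i f) := by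
  simp [tv]

lemma tv_mem (i : ι) (w : D → Ω) : 𝒟.tv hc i₀ i w ∈ tangentSpace (𝒟.basePt hc i₀ i) := by
  intro f g
  simp only [tv_apply, map_mul, coeff_single_mul, Finset.mul_sum, ← Finset.sum_add_distrib]
  refine Finset.sum_congr rfl fun a _ => ?_
  change _ = MvPowerSeries.constantCoeff (𝒟.val hc i₀ i f) * _
    + MvPowerSeries.constantCoeff (𝒟.val hc i₀ i g) * _
  ring

lemma tv_u (i : ι) (w : D → Ω) (a : D) :
    𝒟.tv hc i₀ i w (𝒟.pr c i₀ (X (Sum.inl (some i, a)))) = w a := by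
  rw [tv_apply, val_pr, aeval_X, zpt_u, Finset.sum_eq_single a]
  · simp
  · intro b _ hb
    rw [MvPowerSeries.coeff_X, if_neg, mul_zero]
    intro h
    exact hb ((Finsupp.single_left_inj one_ne_zero).mp h)
  · simp

lemma basePt_mkloc (i : ι) (f : MvPolynomial (D ⊕ Eqs ι Λ D) Ω)
    (hf : f ∈ varIdeal (D ⊕ Eqs ι Λ D) Ω) :
    ((𝒟.basePt hc i₀ i).comp (𝒟.mkloc i₀ i)) f = 0 := by
  have h2 := one_le_order_of_mem (𝒟.xi c i) (𝒟.isSol_xi c i).1 f hf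
  rw [MvPowerSeries.one_le_order_iff_constCoeff_eq_zero] at h2
  change MvPowerSeries.constantCoeff (𝒟.val hc i₀ i (𝒟.mkloc i₀ i f)) = 0
  rw [val_mkloc, h2]

include hc in
lemma mkloc_locEq (i : ι) (j : Eqs ι Λ D) : 𝒟.mkloc (c := c) i₀ i (𝒟.locEq Ω i c j) = 0 := by
  apply 𝒟.val_injective hc i₀ i
  rw [val_mkloc, map_zero, ev_locEq _ _ _ _ (𝒟.isSol_xi c i)]

include hc in
lemma mkloc_inr (i : ι) (j : Eqs ι Λ D) :
    𝒟.mkloc (c := c) i₀ i (X (Sum.inr j)) = 𝒟.mkloc i₀ i (𝒟.sysP Ω i c j) := by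
  rw [sysP, map_sub, map_mul, 𝒟.mkloc_locEq hc, mul_zero, sub_zero]

lemma tangent_mkloc_inr (i : ι) {δ : 𝒟.Coord c i₀ →ₗ[Ω] Ω}
    (h : δ ∈ tangentSpace (𝒟.basePt hc i₀ i)) (j : Eqs ι Λ D) :
    δ (𝒟.mkloc i₀ i (X (Sum.inr j))) = 0 := by
  rw [𝒟.mkloc_inr hc]
  have h1 : δ.comp (𝒟.mkloc i₀ i).toLinearMap
      ∈ tangentSpace ((𝒟.basePt hc i₀ i).comp (𝒟.mkloc i₀ i)) :=
    tangent_comp (𝒟.mkloc i₀ i) h
  have h2 : (δ.comp (𝒟.mkloc i₀ i).toLinearMap) (𝒟.sysP Ω i c j) = 0 :=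
    tangent_sq h1 (varIdeal (D ⊕ Eqs ι Λ D) Ω) (fun f hf => 𝒟.basePt_mkloc hc i₀ i f hf)
      (𝒟.sysP Ω i c j) (𝒟.sysP_mem Ω i c j)
  exact h2

lemma mkloc_inl (i : ι) (a : D) :
    𝒟.mkloc (c := c) i₀ i (X (Sum.inl a)) = 𝒟.pr c i₀ (X (Sum.inl (some i, a))) := by
  simp [mkloc]

/-- A tangent vector at the `i`-th base point killing the coordinates `u_{i,a}` is zero. -/
lemma tangent_eq_zero (i : ι) {δ : 𝒟.Coord c i₀ →ₗ[Ω] Ω}
    (h : δ ∈ tangentSpace (𝒟.basePt hc i₀ i))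
    (h0 : ∀ a, δ (𝒟.pr c i₀ (X (Sum.inl (some i, a)))) = 0) : δ = 0 := by
  have hall : ∀ n, δ (𝒟.mkloc i₀ i (X n)) = 0 := by
    rintro (a | j)
    · rw [mkloc_inl, h0]
    · exact 𝒟.tangent_mkloc_inr hc i₀ i h j
  have hX : ∀ s, δ (𝒟.pr c i₀ (X s)) = 0 := by
    intro s
    have h5 : 𝒟.pr c i₀ (X s)
        = 𝒟.mkloc i₀ i (X (locIdx i s)) + algebraMap Ω _ (𝒟.pt Ω i s) := by
      rw [mkloc_idx, map_sub]
      rw [pr_C, sub_add_cancel]
    rw [h5, map_add, tangent_algebraMap h, add_zero]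
    exact hall (locIdx i s)
  refine LinearMap.ext fun f => ?_
  obtain ⟨p, rfl⟩ := 𝒟.pr_surjective c i₀ f
  rw [LinearMap.zero_apply]
  exact tangent_mvPolynomial (tangent_comp (𝒟.pr c i₀) h) hX p

/-- The tangent vectors depend linearly on their coordinates. -/
noncomputable def tvLin (i : ι) : (D → Ω) →ₗ[Ω] (𝒟.Coord c i₀ →ₗ[Ω] Ω) where
  toFun := 𝒟.tv hc i₀ i
  map_add' w w' := by
    refine LinearMap.ext fun f => ?_
    rw [LinearMap.add_apply, tv_apply, tv_apply, tv_apply, ← Finset.sum_add_distrib]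
    refine Finset.sum_congr rfl fun a _ => ?_
    rw [Pi.add_apply, add_mul]
  map_smul' r w := by
    refine LinearMap.ext fun f => ?_
    rw [LinearMap.smul_apply, tv_apply, tv_apply, Finset.smul_sum]
    refine Finset.sum_congr rfl fun a _ => ?_
    rw [Pi.smul_apply, smul_eq_mul, smul_eq_mul, RingHom.id_apply, mul_assoc]

lemma tvLin_apply (i : ι) (w : D → Ω) : 𝒟.tvLin hc i₀ i w = 𝒟.tv hc i₀ i w := rfl

lemma tvLin_injective (i : ι) : Function.Injective (𝒟.tvLin hc i₀ i) := by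
  intro w w' h
  funext a
  have h1 := LinearMap.congr_fun h (𝒟.pr c i₀ (X (Sum.inl (some i, a))))
  rw [tvLin_apply, tvLin_apply, tv_u, tv_u] at h1
  exact h1

lemma tvLin_surj (i : ι) (δ : 𝒟.Coord c i₀ →ₗ[Ω] Ω)
    (hδ : δ ∈ tangentSpace (𝒟.basePt hc i₀ i)) : ∃ w, 𝒟.tvLin hc i₀ i w = δ := by
  refine ⟨fun a => δ (𝒟.pr c i₀ (X (Sum.inl (some i, a)))), ?_⟩
  refine sub_eq_zero.mp ?_
  refine 𝒟.tangent_eq_zero hc i₀ i (sub_mem (𝒟.tv_mem hc i₀ i _) hδ) fun a => ?_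
  rw [LinearMap.sub_apply, tvLin_apply, tv_u, sub_self]

/-- The tangent space at the `i`-th base point. -/
noncomputable def tvEquiv (i : ι) : (D → Ω) ≃ₗ[Ω] tangentSpace (𝒟.basePt hc i₀ i) :=
  LinearEquiv.ofBijective
    ((𝒟.tvLin hc i₀ i).codRestrict _ (fun w => 𝒟.tv_mem hc i₀ i w))
    ⟨fun w w' h => 𝒟.tvLin_injective hc i₀ i (congrArg Subtype.val h),
      fun ⟨δ, hδ⟩ => by
        obtain ⟨w, hw⟩ := 𝒟.tvLin_surj hc i₀ i δ hδ
        exact ⟨w, Subtype.ext hw⟩⟩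

lemma tvEquiv_coe (i : ι) (w : D → Ω) :
    (𝒟.tvEquiv hc i₀ i w : 𝒟.Coord c i₀ →ₗ[Ω] Ω) = 𝒟.tv hc i₀ i w := rfl

/-- Elements of the stabilizer fix the base point. -/
lemma basePt_act (i : ι) (γ : Γ) (hγ : γ • 𝒟.base i = 𝒟.base i) (f : 𝒟.Coord c i₀) :
    𝒟.basePt hc i₀ i (𝒟.actHom hc i₀ γ f) = 𝒟.basePt hc i₀ i f := by
  obtain ⟨p, rfl⟩ := 𝒟.pr_surjective c i₀ f
  induction p using MvPolynomial.induction_on with
  | C a => rw [pr_C, AlgEquiv.commutes]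
  | add p q hp hq => simp only [map_add, hp, hq]
  | mul_X p n hp =>
    rw [map_mul, map_mul, map_mul, map_mul, hp]
    congr 1
    rw [actHom_pr]
    rcases n with ⟨_ | j, a⟩ | l
    · rw [act_s]
    · rw [act_u, map_sum, map_sum, basePt_u]
      refine Finset.sum_eq_zero fun b _ => ?_
      rw [map_mul, map_mul, basePt_u, mul_zero]
    · rw [act_x, basePt_x, basePt_x]
      congr 1
      rw [eq_iff_iff]
      constructor
      · intro h
        have := congrArg (fun t => γ⁻¹ • t) h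
        simp only [inv_smul_smul] at this
        rw [this, inv_smul_eq_iff, hγ]
      · rintro rfl
        exact hγ

/-- The action of the stabilizer on tangent vectors. -/
lemma tv_act (i : ι) (γ : Γ) (hγ : γ • 𝒟.base i = 𝒟.base i) (w : D → Ω) (f : 𝒟.Coord c i₀) :
    𝒟.tv hc i₀ i (((𝒟.rep i γ).map (algebraMap k Ω)).mulVec w) f
      = 𝒟.tv hc i₀ i w (𝒟.actHom hc i₀ γ⁻¹ f) := by
  have hγ' : γ⁻¹ • 𝒟.base i = 𝒟.base i := by rw [inv_smul_eq_iff, hγ]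
  have hmem : (𝒟.tv hc i₀ i w).comp (𝒟.actHom hc i₀ γ⁻¹).toAlgHom.toLinearMap
      ∈ tangentSpace (𝒟.basePt hc i₀ i) := by
    have h1 := tangent_comp (𝒟.actHom hc i₀ γ⁻¹).toAlgHom (𝒟.tv_mem hc i₀ i w)
    have h2 : (𝒟.basePt hc i₀ i).comp (𝒟.actHom hc i₀ γ⁻¹).toAlgHom = 𝒟.basePt hc i₀ i :=
      AlgHom.ext fun f => 𝒟.basePt_act hc i₀ i γ⁻¹ hγ' f
    rwa [h2] at h1
  have key : 𝒟.tv hc i₀ i (((𝒟.rep i γ).map (algebraMap k Ω)).mulVec w)
      - (𝒟.tv hc i₀ i w).comp (𝒟.actHom hc i₀ γ⁻¹).toAlgHom.toLinearMap = 0 := by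
    refine 𝒟.tangent_eq_zero hc i₀ i (sub_mem (𝒟.tv_mem hc i₀ i _) hmem) fun a => ?_
    rw [LinearMap.sub_apply, tv_u]
    change _ - 𝒟.tv hc i₀ i w (𝒟.actHom hc i₀ γ⁻¹ (𝒟.pr c i₀ _)) = 0
    rw [actHom_pr, act_u, inv_inv, map_sum, map_sum, sub_eq_zero, Matrix.mulVec, dotProduct]
    refine Finset.sum_congr rfl fun b _ => ?_
    rw [Matrix.map_apply, ← MvPolynomial.smul_eq_C_mul, map_smul, map_smul, tv_u, smul_eq_mul]
  have := LinearMap.congr_fun key f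
  rw [LinearMap.sub_apply, LinearMap.zero_apply, sub_eq_zero] at this
  exact this

end Datum

end Pool.Agent.IsoRep
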