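import Mathlib
import Pool.Agent.IsoRep.VarietyTangent

/-!
# Dimension of the variety
-/

set_option autoImplicit false
set_option linter.unusedSectionVars false

namespace Pool.Agent.IsoRep

open MvPolynomial

namespace Datum

variable {k : Type*} [Field k] {Γ ι Λ D : Type*} [Group Γ] [MulAction Γ Λ] [Fintype D]
    [DecidableEq D] (𝒟 : Datum k Γ ι Λ D) [Fintype ι] [DecidableEq ι] [Fintype Γ] [DecidableEq Λ]
    [Fintype Λ] {Ω : Type*} [Field Ω] [Algebra k Ω] [CharZero k]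
    {c : Eqs ι Λ D → Ω} (hc : AlgebraicIndependent k c) (i₀ : ι)

/-- The transcendence basis of the coordinate ring. -/
noncomputable def xb (c : Eqs ι Λ D → Ω) (i₀ : ι) (a : D) : 𝒟.Coord c i₀ :=
  𝒟.pr c i₀ (X (Sum.inl (some i₀, a)))

lemma val_xb (a : D) : 𝒟.val hc i₀ i₀ (𝒟.xb c i₀ a) = MvPowerSeries.X a := by
  rw [xb, val_pr, aeval_X, zpt_u]

lemma val_aeval (p : MvPolynomial D Ω) : 𝒟.val hc i₀ i₀ (aeval (𝒟.xb c i₀) p)
    = aeval (fun a : D => (MvPowerSeries.X a : MvPowerSeries D Ω)) p := by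
  have h1 := MvPolynomial.comp_aeval_apply (𝒟.xb c i₀) (𝒟.val hc i₀ i₀) p
  rw [h1]
  congr 2
  funext a
  exact 𝒟.val_xb hc i₀ a

include hc in
lemma algebraicIndependent_xb : AlgebraicIndependent Ω (𝒟.xb c i₀) := by
  apply AlgebraicIndependent.of_comp (𝒟.val hc i₀ i₀)
  have : 𝒟.val hc i₀ i₀ ∘ 𝒟.xb c i₀ = fun a => (MvPowerSeries.X a : MvPowerSeries D Ω) := by
    funext a
    exact 𝒟.val_xb hc i₀ a
  rw [this]
  exact algebraicIndependent_powerSeries_X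

/-- The comparison of the polynomial subalgebras. -/
noncomputable def xbMap : Algebra.adjoin Ω (Set.range (𝒟.xb c i₀)) →ₐ[Ω]
    Algebra.adjoin Ω (Set.range (fun a : D => (MvPowerSeries.X a : MvPowerSeries D Ω))) :=
  AlgHom.codRestrict ((𝒟.val hc i₀ i₀).comp (Algebra.adjoin Ω (Set.range (𝒟.xb c i₀))).val) _ (by
    rintro ⟨f, hf⟩
    rw [Algebra.adjoin_range_eq_range_aeval] at hf ⊢
    obtain ⟨p, hp⟩ := hf
    refine ⟨p, ?_⟩
    have h1 : aeval (𝒟.xb c i₀) p = f := hp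
    change aeval (fun a : D => (MvPowerSeries.X a : MvPowerSeries D Ω)) p = 𝒟.val hc i₀ i₀ f
    rw [← h1, val_aeval])

lemma xbMap_surjective : Function.Surjective (𝒟.xbMap hc i₀) := by
  rintro ⟨f, hf⟩
  have hf' := hf
  rw [Algebra.adjoin_range_eq_range_aeval] at hf'
  obtain ⟨p, hp⟩ := hf'
  refine ⟨⟨aeval (𝒟.xb c i₀) p, by
    rw [Algebra.adjoin_range_eq_range_aeval]; exact ⟨p, rfl⟩⟩, ?_⟩
  apply Subtype.ext
  change 𝒟.val hc i₀ i₀ (aeval (𝒟.xb c i₀) p) = f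
  have h1 : aeval (fun a : D => (MvPowerSeries.X a : MvPowerSeries D Ω)) p = f := hp
  rw [← h1, val_aeval]

include hc in
lemma isAlgebraic_X (s : Amb ι Λ D) :
    IsAlgebraic (Algebra.adjoin Ω (Set.range (𝒟.xb c i₀))) (𝒟.pr c i₀ (X s)) := by
  have h1 := ((𝒟.isPoint_zpt hc i₀).good.count card_amb hc).2 s
  have h2 : 𝒟.zpt c i₀ s = 𝒟.val hc i₀ i₀ (𝒟.pr c i₀ (X s)) := by
    rw [val_pr, aeval_X]
  rw [h2] at h1
  exact h1.of_ringHom_of_comp_eq (𝒟.xbMap hc i₀) (𝒟.val hc i₀ i₀) (𝒟.xbMap_surjective hc i₀)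
    (𝒟.val_injective hc i₀ i₀) (by ext f; rfl)

include hc in
lemma isTranscendenceBasis_xb : IsTranscendenceBasis Ω (𝒟.xb c i₀) := by
  rw [isTranscendenceBasis_iff_algebraicIndependent_isAlgebraic]
  refine ⟨𝒟.algebraicIndependent_xb hc i₀, ⟨fun f => ?_⟩⟩
  obtain ⟨p, rfl⟩ := 𝒟.pr_surjective c i₀ f
  induction p using MvPolynomial.induction_on with
  | C a =>
    have h1 : 𝒟.pr c i₀ (C a)
        = algebraMap (Algebra.adjoin Ω (Set.range (𝒟.xb c i₀))) _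
          (algebraMap Ω (Algebra.adjoin Ω (Set.range (𝒟.xb c i₀))) a) := by
      rw [pr_C, ← IsScalarTower.algebraMap_apply]
    rw [h1]
    exact isAlgebraic_algebraMap _
  | add p q hp hq => rw [map_add]; exact hp.add hq
  | mul_X p n hp => rw [map_mul]; exact hp.mul (𝒟.isAlgebraic_X hc i₀ n)

include hc in
/-- The variety has dimension `|D|`. -/
theorem ringKrullDim_coord : ringKrullDim (𝒟.Coord c i₀) = Nat.card D :=
  ringKrullDim_of_isTranscendenceBasis _ (𝒟.isTranscendenceBasis_xb hc i₀)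

end Datum

end Pool.Agent.IsoRep
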