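import Mathlib
import Pool.Agent.IsoRep.VarietyDim
import Pool.Agent.IsoRep.QuotFacts

/-!
# The group `Γ = G × ∏ H_i` and the datum attached to subgroups with representations
-/

set_option autoImplicit false
set_option linter.unusedSectionVars false

namespace Pool.Agent.IsoRep

open MvPolynomial

/-- Subgroups with matrix representations, together with test vectors and test polynomials. -/
structure Input (k : Type*) [Field k] (G ι D : Type*) [Group G] [Fintype D]
    [DecidableEq D] where
  H : ι → Subgroup G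
  R : ∀ i, H i →* Matrix D D k
  phi : ι → MvPolynomial D k
  vec : ι → D → k
  phi_mem : ∀ i, phi i ∈ varIdeal D k ^ 2
  phi_one : ∀ i, eval (vec i) (phi i) = 1
  phi_zero : ∀ i (h : H i), h ≠ 1 → eval ((R i h).mulVec (vec i)) (phi i) = 0

namespace Input

variable {k : Type*} [Field k] {G ι D : Type*} [Group G] [Fintype D]
    [DecidableEq D] [DecidableEq ι] (I : Input k G ι D)

/-- The big group. -/
abbrev Gam (I : Input k G ι D) := G × (∀ i, I.H i)

/-- The embedding of `H i` in the big group. -/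
def theta (i : ι) : I.H i →* I.Gam :=
  (I.H i).subtype.prod (MonoidHom.mulSingle (fun i => I.H i) i)

lemma theta_fst (i : ι) (h : I.H i) : (I.theta i h).1 = (h : G) := rfl

lemma theta_snd (i : ι) (h : I.H i) : (I.theta i h).2 = Pi.mulSingle i h := rfl

/-- The stabilizer subgroups. -/
def stab (i : ι) : Subgroup I.Gam := (I.theta i).range

/-- The index set of the coordinates `x`. -/
abbrev Lam (I : Input k G ι D) := Σ i, I.Gam ⧸ I.stab i

/-- The base points. -/
def lam (i : ι) : I.Lam := ⟨i, ((1 : I.Gam) : I.Gam ⧸ I.stab i)⟩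

lemma smul_lam (γ : I.Gam) (i : ι) : γ • I.lam i = ⟨i, (γ : I.Gam ⧸ I.stab i)⟩ := by
  change (⟨i, γ • ((1 : I.Gam) : I.Gam ⧸ I.stab i)⟩ : I.Lam) = _
  rw [MulAction.Quotient.smul_coe, smul_eq_mul, mul_one]

lemma smul_lam_eq (γ : I.Gam) (i : ι) : γ • I.lam i = I.lam i ↔ ∃ h : I.H i, I.theta i h = γ := by
  rw [smul_lam, lam, Sigma.mk.injEq]
  simp only [heq_eq_eq, true_and]
  rw [eq_comm, QuotientGroup.eq, inv_one, one_mul]
  rfl

/-- The datum attached to the input. -/
noncomputable def datum : Datum k I.Gam ι I.Lam D where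
  base := I.lam
  rep j := (I.R j).comp ((Pi.evalMonoidHom (fun i => I.H i) j).comp (MonoidHom.snd _ _))
  phi := I.phi
  vec := I.vec
  base_inj γ i i' h := by
    rw [smul_lam, lam, Sigma.mk.injEq] at h
    exact h.1
  rep_trivial γ i j h hj := by
    rw [smul_lam_eq] at h
    obtain ⟨h, rfl⟩ := h
    change I.R j ((I.theta i h).2 j) = 1
    rw [theta_snd, Pi.mulSingle_eq_of_ne hj, map_one]
  phi_mem := I.phi_mem
  phi_one := I.phi_one
  phi_zero i γ h hγ := by
    rw [smul_lam_eq] at h
    obtain ⟨h, rfl⟩ := h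
    change eval ((I.R i ((I.theta i h).2 i)).mulVec (I.vec i)) (I.phi i) = 0
    rw [theta_snd, Pi.mulSingle_eq_same]
    apply I.phi_zero
    rintro rfl
    exact hγ (map_one _)

lemma datum_base (i : ι) : I.datum.base i = I.lam i := rfl

lemma datum_rep (j : ι) (γ : I.Gam) : I.datum.rep j γ = I.R j (γ.2 j) := rfl

lemma smul_base_theta (i : ι) (h : I.H i) : I.theta i h • I.datum.base i = I.datum.base i :=
  (I.smul_lam_eq _ i).mpr ⟨h, rfl⟩

/-- Elements of `1 × ∏ H_i` moving no base point are trivial. -/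
lemma eq_one_of_smul_lam (n : ∀ i, I.H i) (i : ι)
    (h : ((1 : G), n) • I.lam i = I.lam i) : n = 1 := by
  rw [smul_lam_eq] at h
  obtain ⟨h, hh⟩ := h
  have h1 : (h : G) = 1 := congrArg Prod.fst hh
  have h2 : h = 1 := Subtype.ext h1
  subst h2
  rw [map_one] at hh
  exact (congrArg Prod.snd hh).symm

end Input

end Pool.Agent.IsoRep
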