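import Mathlib
import Pool.Agent.IsoRep.QuotFacts

/-!
# The quotient of an affine variety by a normal subgroup acting freely at given points
-/

set_option autoImplicit false
set_option linter.unusedSectionVars false

namespace Pool.Agent.IsoRep

section

variable {K A G N : Type*} [Field K] [CommRing A] [Algebra K A] [Group G] [Group N]
  [Fintype N]

/-- The action of `N` on `A` obtained from an action of `G × N`. -/
@[reducible] noncomputable def nAct (Φ : G × N →* (A ≃ₐ[K] A)) : MulSemiringAction N A :=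
  MulSemiringAction.compHom A (Φ.comp (MonoidHom.inr G N))

lemma nAct_comm (Φ : G × N →* (A ≃ₐ[K] A)) :
    let _ := nAct Φ
    SMulCommClass N K A := by
  let _ := nAct Φ
  exact ⟨fun n r a => map_smul (Φ (1, n)) r a⟩

/-- Data of the quotient. -/
theorem quot_main [CharZero K] [IsDomain A] [Algebra.FiniteType K A] {ι : Type*}
    (Φ : G × N →* (A ≃ₐ[K] A)) (H : ι → Subgroup G) (θ : ∀ i, H i → N)
    (x : ι → (A →ₐ[K] K)) (hfix : ∀ i (h : H i) f, x i (Φ ((h : G), θ i h) f) = x i f)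
    (hfree : ∀ i n, n ≠ 1 → ∃ f, x i (Φ (1, n) f) ≠ x i f)
    (hsep : ∀ i j, i ≠ j → ∀ n, ∃ f, x i (Φ (1, n) f) ≠ x j f)
    (V : ι → Type*) [∀ i, AddCommGroup (V i)] [∀ i, Module K (V i)]
    (ρ : ∀ i, Representation K (H i) (V i))
    (e : ∀ i, V i ≃ₗ[K] tangentSpace (x i))
    (he : ∀ i (h : H i) v f, (e i (ρ i h v) : A →ₗ[K] K) f
      = (e i v : A →ₗ[K] K) (Φ ((h : G), θ i h)⁻¹ f)) :
    ∃ (B : Subalgebra K A) (φ : G →* (B ≃ₐ[K] B)) (y : ι → (B →ₐ[K] K)),
      Algebra.FiniteType K B ∧ ringKrullDim B = ringKrullDim A ∧ Function.Injective y ∧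
      (∀ i (h : H i) f, y i (φ h f) = y i f) ∧
      ∀ i, ∃ e : V i ≃ₗ[K] tangentSpace (y i), ∀ (h : H i) v f,
        (e (ρ i h v) : B →ₗ[K] K) f = (e v : B →ₗ[K] K) (φ (h : G)⁻¹ f) := by
  let _ := nAct Φ
  have := nAct_comm Φ
  have hsmul : ∀ (n : N) (a : A), n • a = Φ (1, n) a := fun n a => rfl
  have hNoeth : IsNoetherianRing A := Algebra.FiniteType.isNoetherianRing K A
  let B : Subalgebra K A := FixedPoints.subalgebra K A N
  have hB : ∀ a : A, a ∈ B ↔ ∀ n : N, Φ (1, n) a = a := fun a => Iff.rfl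
  have hstab : ∀ (g : G) (b : B), Φ (g, 1) (b : A) ∈ B := by
    intro g b
    rw [hB]
    intro n
    rw [← AlgEquiv.mul_apply, ← map_mul]
    have h1 : ((1 : G), n) * (g, 1) = (g, 1) * (1, n) := by simp
    rw [h1, map_mul, AlgEquiv.mul_apply, (hB _).mp b.2 n]
  let ψ : G → (B →ₐ[K] B) := fun g =>
    (((Φ (g, 1)).toAlgHom.comp B.val).codRestrict B (fun b => hstab g b))
  have hψ : ∀ g b, ((ψ g b : B) : A) = Φ (g, 1) (b : A) := fun g b => rfl
  have hψmul : ∀ g g' b, ψ (g * g') b = ψ g (ψ g' b) := by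
    intro g g' b
    apply Subtype.ext
    rw [hψ, hψ, hψ, ← AlgEquiv.mul_apply, ← map_mul, Prod.mk_mul_mk, one_mul]
  have hψone : ∀ b, ψ 1 b = b := by
    intro b
    apply Subtype.ext
    rw [hψ]
    have h1 : ((1 : G), (1 : N)) = 1 := rfl
    rw [h1, map_one]; rfl
  let φ : G →* (B ≃ₐ[K] B) :=
    { toFun := fun g => AlgEquiv.ofAlgHom (ψ g) (ψ g⁻¹)
        (AlgHom.ext fun b => by
          change ψ g (ψ g⁻¹ b) = b
          rw [← hψmul, mul_inv_cancel, hψone])
        (AlgHom.ext fun b => by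
          change ψ g⁻¹ (ψ g b) = b
          rw [← hψmul, inv_mul_cancel, hψone])
      map_one' := AlgEquiv.ext fun b => hψone b
      map_mul' := fun g g' => AlgEquiv.ext fun b => hψmul g g' b }
  have hφ : ∀ g b, ((φ g b : B) : A) = Φ (g, 1) (b : A) := fun g b => rfl
  have hfree' : ∀ i, FreeAt N (x i) := fun i n hn => hfree i n hn
  refine ⟨B, φ, fun i => resPt N (x i), invariants_finiteType K A N,
    invariants_ringKrullDim K A N, ?_, ?_, ?_⟩
  · -- distinctness
    intro i j hij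
    by_contra hne
    have hinv := invariants_isInvariant K A N
    have hmi := mx_isMaximal (x i)
    have hmj := mx_isMaximal (x j)
    have hpi := hmi.isPrime
    have hpj := hmj.isPrime
    have h1 : (mx (x i)).under B = (mx (x j)).under B := by
      ext b
      rw [Ideal.mem_under, Ideal.mem_under, mem_mx, mem_mx]
      have h2 : x i (b : A) = x j (b : A) := congrArg (fun t => t b) hij
      change x i (b : A) = 0 ↔ x j (b : A) = 0
      rw [h2]
    obtain ⟨n, hn⟩ := Algebra.IsInvariant.exists_smul_of_under_eq B A N (mx (x i)) (mx (x j)) h1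
    obtain ⟨f, hf⟩ := hsep i j hne n⁻¹
    apply hf
    have h3 : (f - algebraMap K A (x j f)) ∈ mx (x j) := by
      rw [mem_mx, map_sub, AlgHom.commutes]; simp
    rw [hn, Ideal.mem_pointwise_smul_iff_inv_smul_mem, mem_mx, smul_sub, smul_algebraMap, map_sub,
      AlgHom.commutes, sub_eq_zero] at h3
    exact h3
  · -- fixed points
    intro i h b
    change x i ((φ (h : G) b : B) : A) = x i (b : A)
    rw [hφ]
    have h1 : ((h : G), (1 : N)) = ((h : G), θ i h) * (1, (θ i h)⁻¹) := by simp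
    rw [h1, map_mul, AlgEquiv.mul_apply, hfix, (hB _).mp b.2]
  · intro i
    refine ⟨(e i).trans (resTangentEquiv (hfree' i)), ?_⟩
    intro h v b
    change (e i (ρ i h v) : A →ₗ[K] K) (b : A) = (e i v : A →ₗ[K] K) ((φ (h : G)⁻¹ b : B) : A)
    rw [he, hφ]
    have h1 : ((h : G), θ i h)⁻¹ = ((h : G)⁻¹, (1 : N)) * (1, (θ i h)⁻¹) := by simp
    rw [h1, map_mul, AlgEquiv.mul_apply, (hB _).mp b.2]

end

end Pool.Agent.IsoRep
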