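import Mathlib
import Pool.Agent.IsoRep.Group
import Pool.Agent.IsoRep.QuotMain

/-!
# Assembling the variety for an input
-/

set_option autoImplicit false
set_option linter.unusedSectionVars false

namespace Pool.Agent.IsoRep

open MvPolynomial

namespace Input

variable {k : Type*} [Field k] {G ι D : Type*} [Group G] [Fintype D]
    [DecidableEq D] [DecidableEq ι] (I : Input k G ι D)

/-- The representation of `H i` on `D → Ω`. -/
noncomputable def rho (Ω : Type*) [Field Ω] [Algebra k Ω] (i : ι) :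
    Representation Ω (I.H i) (D → Ω) where
  toFun h := Matrix.toLin' ((I.R i h).map (algebraMap k Ω))
  map_one' := by
    rw [map_one, Matrix.map_one _ (map_zero _) (map_one _), Matrix.toLin'_one]; rfl
  map_mul' h h' := by
    rw [map_mul, Matrix.map_mul, Matrix.toLin'_mul]; rfl

lemma rho_apply (Ω : Type*) [Field Ω] [Algebra k Ω] (i : ι) (h : I.H i) (v : D → Ω) :
    I.rho Ω i h v = ((I.R i h).map (algebraMap k Ω)).mulVec v := by
  change Matrix.toLin' _ v = _
  rw [Matrix.toLin'_apply]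

/-- The main construction. -/
theorem main [CharZero k] [Fintype ι] [Fintype G] [∀ i, Fintype (I.H i)]
    [Fintype I.Lam] [DecidableEq I.Lam] (i₀ : ι) {Ω : Type*} [Field Ω] [Algebra k Ω]
    (c : Eqs ι I.Lam D → Ω) (hc : AlgebraicIndependent k c) :
    ∃ (B : Subalgebra Ω (I.datum.Coord c i₀)) (φ : G →* (B ≃ₐ[Ω] B)) (y : ι → (B →ₐ[Ω] Ω)),
      Algebra.FiniteType Ω B ∧ ringKrullDim B = Nat.card D ∧ Function.Injective y ∧
      (∀ i (h : I.H i) f, y i (φ h f) = y i f) ∧
      ∀ i, ∃ e : (D → Ω) ≃ₗ[Ω] tangentSpace (y i), ∀ (h : I.H i) v f,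
        (e (I.rho Ω i h v) : B →ₗ[Ω] Ω) f = (e v : B →ₗ[Ω] Ω) (φ (h : G)⁻¹ f) := by
  classical
  have hcΩ : CharZero Ω := charZero_of_injective_algebraMap (algebraMap k Ω).injective
  have hfix : ∀ i (h : I.H i) f, I.datum.basePt hc i₀ i
      (I.datum.actHom hc i₀ (I.theta i h) f) = I.datum.basePt hc i₀ i f :=
    fun i h f => I.datum.basePt_act hc i₀ i _ (I.smul_base_theta i h) f
  have hx : ∀ i (γ : I.Gam) (l : I.Lam), I.datum.basePt hc i₀ i
      (I.datum.actHom hc i₀ γ (I.datum.pr c i₀ (X (Sum.inr l))))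
      = if γ • l = I.lam i then 1 else 0 := by
    intro i γ l
    rw [Datum.actHom_pr, Datum.act_x, Datum.basePt_x]; rfl
  obtain ⟨B, φ, y, h1, h2, h3, h4, h5⟩ := quot_main (A := I.datum.Coord c i₀) (K := Ω)
    (G := G) (N := ∀ i, I.H i) (ι := ι) (I.datum.actHom hc i₀) I.H
    (fun i h => (I.theta i h).2) (I.datum.basePt hc i₀) (fun i h f => hfix i h f)
    (fun i n hn => by
      refine ⟨I.datum.pr c i₀ (X (Sum.inr (I.lam i))), ?_⟩
      have h8 : ¬ ((1 : G), n) • I.lam i = I.lam i :=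
        fun h => hn (I.eq_one_of_smul_lam n i h)
      rw [hx, Datum.basePt_x, datum_base, if_neg h8, if_pos rfl]
      exact zero_ne_one)
    (fun i j hij n => by
      refine ⟨I.datum.pr c i₀ (X (Sum.inr (I.lam j))), ?_⟩
      have h8 : ¬ ((1 : G), n) • I.lam j = I.lam i := by
        intro h
        rw [smul_lam, lam, Sigma.mk.injEq] at h
        exact hij h.1.symm
      rw [hx, Datum.basePt_x, datum_base, if_neg h8, if_pos rfl]
      exact zero_ne_one)
    (fun _ => D → Ω) (fun i => I.rho Ω i) (fun i => I.datum.tvEquiv hc i₀ i)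
    (fun i h v f => by
      rw [Datum.tvEquiv_coe, Datum.tvEquiv_coe, rho_apply]
      have h6 := I.datum.tv_act hc i₀ i (I.theta i h) (I.smul_base_theta i h) v f
      have h7 : I.datum.rep i (I.theta i h) = I.R i h := by
        rw [datum_rep, theta_snd, Pi.mulSingle_eq_same]
      rw [h7] at h6
      exact h6)
  refine ⟨B, φ, y, h1, ?_, h3, h4, h5⟩
  rw [h2]
  exact I.datum.ringKrullDim_coord hc i₀

end Input

end Pool.Agent.IsoRep
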