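import Mathlib

/-!
# Affine varieties with a group action: points, tangent spaces, isotropy representations

An affine variety over `ℂ` is given by its coordinate ring `A`, so `X = Spec A`. A point of `X`
is a `ℂ`-algebra homomorphism `x : A → ℂ`, `f ↦ f(x)`. A group `G` acts on `X` through
`φ : G →* (A ≃ₐ[ℂ] A)`, where `φ g f = f ∘ g⁻¹`. The point `g • x` is `f ↦ x (φ g⁻¹ f)`.
-/

set_option autoImplicit false

namespace Pool.Agent.IsoRep.Geom

/-- The Zariski tangent space of `X = Spec A` at the point `x : A → ℂ`: the space of linear forms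
`δ : A → ℂ` with `δ (f g) = f(x) δ(g) + g(x) δ(f)` (point derivations at `x`). -/
def tangentSpace {A : Type*} [CommRing A] [Algebra ℂ A] (x : A →ₐ[ℂ] ℂ) :
    Submodule ℂ (Module.Dual ℂ A) where
  carrier := {δ | ∀ f g : A, δ (f * g) = x f * δ g + x g * δ f}
  add_mem' := by
    intro δ δ' h h' f g
    simp only [LinearMap.add_apply, h f g, h' f g]
    ring
  zero_mem' := by intro f g; simp
  smul_mem' := by
    intro c δ h f g
    simp only [LinearMap.smul_apply, smul_eq_mul, h f g]
    ring

/-- The point `x` is fixed by every element of `H`. -/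
def FixedBy {G A : Type*} [Group G] [CommRing A] [Algebra ℂ A] (φ : G →* (A ≃ₐ[ℂ] A))
    (H : Subgroup G) (x : A →ₐ[ℂ] ℂ) : Prop :=
  ∀ (h : H) (f : A), x (φ h f) = x f

/-- The action of `G` on functions, as a linear representation: `g` sends `f` to
`φ g f = f ∘ g⁻¹`. -/
def funRep {G A : Type*} [Group G] [CommRing A] [Algebra ℂ A] (φ : G →* (A ≃ₐ[ℂ] A)) :
    Representation ℂ G A where
  toFun g := (φ g).toLinearMap
  map_one' := by ext; simp
  map_mul' g h := by ext; simp

/-- The induced action of `H` on linear forms: `h` sends `δ` to `f ↦ δ (φ h⁻¹ f) = δ (f ∘ h)`. -/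
noncomputable def formRep {G A : Type*} [Group G] [CommRing A] [Algebra ℂ A]
    (φ : G →* (A ≃ₐ[ℂ] A)) (H : Subgroup G) : Representation ℂ H (Module.Dual ℂ A) :=
  (funRep φ).dual.comp H.subtype

lemma formRep_apply {G A : Type*} [Group G] [CommRing A] [Algebra ℂ A]
    (φ : G →* (A ≃ₐ[ℂ] A)) (H : Subgroup G) (h : H) (δ : Module.Dual ℂ A) (f : A) :
    formRep φ H h δ f = δ (φ (h : G)⁻¹ f) := rfl

lemma formRep_mem {G A : Type*} [Group G] [CommRing A] [Algebra ℂ A]
    (φ : G →* (A ≃ₐ[ℂ] A)) (H : Subgroup G) (x : A →ₐ[ℂ] ℂ) (hx : FixedBy φ H x) (h : H) :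
    tangentSpace x ≤ (tangentSpace x).comap (formRep φ H h) := by
  intro δ hδ f g
  rw [formRep_apply, formRep_apply, formRep_apply, map_mul, hδ]
  have hf : x (φ (h : G)⁻¹ f) = x f := hx h⁻¹ f
  have hg : x (φ (h : G)⁻¹ g) = x g := hx h⁻¹ g
  rw [hf, hg]

/-- The isotropy representation of `H` at a fixed point `x`: `h` acts on a tangent vector `δ` by
the differential of `h : X → X`, that is, it sends `δ` to `f ↦ δ (f ∘ h)`. -/
noncomputable def isotropyRep {G A : Type*} [Group G] [CommRing A] [Algebra ℂ A]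
    (φ : G →* (A ≃ₐ[ℂ] A)) (H : Subgroup G) (x : A →ₐ[ℂ] ℂ) (hx : FixedBy φ H x) :
    Representation ℂ H (tangentSpace x) :=
  (formRep φ H).subrepresentation (tangentSpace x) (formRep_mem φ H x hx)

/-- `x` is fixed by `H` and the isotropy representation of `H` at `x` is isomorphic to `ρ`. -/
def HasIsotropy {G A V : Type*} [Group G] [CommRing A] [Algebra ℂ A] [AddCommGroup V] [Module ℂ V]
    (φ : G →* (A ≃ₐ[ℂ] A)) (H : Subgroup G) (x : A →ₐ[ℂ] ℂ) (ρ : Representation ℂ H V) : Prop :=
  ∃ hx : FixedBy φ H x, Nonempty (ρ.Equiv (isotropyRep φ H x hx))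

/-- The affine variety `X = Spec A` with the action `φ` of `G` and the points `x i` realises the
data `H i`, `d`, `ρ i`: it is irreducible of dimension `d`, the points are pairwise distinct, `x i`
is fixed by `H i`, and the isotropy representation of `H i` at `x i` is isomorphic to `ρ i`. -/
structure Realises {G ι A : Type*} {V : ι → Type*} [Group G] [CommRing A] [Algebra ℂ A]
    [∀ i, AddCommGroup (V i)] [∀ i, Module ℂ (V i)] (H : ι → Subgroup G) (d : ℕ)
    (ρ : ∀ i, Representation ℂ (H i) (V i)) (φ : G →* (A ≃ₐ[ℂ] A)) (x : ι → (A →ₐ[ℂ] ℂ)) :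
    Prop where
  isDomain : IsDomain A
  finiteType : Algebra.FiniteType ℂ A
  dim : ringKrullDim A = d
  distinct : Function.Injective x
  isotropy : ∀ i, HasIsotropy φ (H i) (x i) (ρ i)


end Pool.Agent.IsoRep.Geom
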