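import Mathlib
import Pool.Agent.IsoRep.Group

/-!
# Inputs from faithful matrix representations
-/

set_option autoImplicit false
set_option linter.unusedSectionVars false

namespace Pool.Agent.IsoRep

open MvPolynomial

section

variable {k D : Type*} [Field k] [Fintype D] [DecidableEq D]

/-- A faithful representation of a finite group has a vector with trivial stabilizer. -/
lemma exists_vec [Infinite k] [Nonempty D] {H : Type*} [Group H] [Finite H]
    (R : H →* Matrix D D k) (hR : Function.Injective R) :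
    ∃ v : D → k, v ≠ 0 ∧ ∀ h, h ≠ 1 → (R h).mulVec v ≠ v := by
  classical
  have := Fintype.ofFinite H
  let W : H → Subspace k (D → k) := fun h =>
    if h = 1 then ⊥ else LinearMap.ker (Matrix.toLin' (R h) - LinearMap.id)
  let s : Finset (Subspace k (D → k)) := Finset.univ.image W
  have hs : (⊤ : Subspace k (D → k)) ∉ s := by
    intro h
    obtain ⟨g, _, hg⟩ := Finset.mem_image.mp h
    by_cases h1 : g = 1
    · simp only [W, if_pos h1] at hg
      exact bot_ne_top hg
    · simp only [W, if_neg h1] at hg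
      rw [LinearMap.ker_eq_top, sub_eq_zero] at hg
      apply h1
      apply hR
      rw [map_one]
      apply Matrix.toLin'.injective
      rw [hg, Matrix.toLin'_one]
  have hne := Subspace.biUnion_ne_univ_of_top_notMem hs
  obtain ⟨v, hv⟩ := (Set.ne_univ_iff_exists_notMem _).mp hne
  have hv' : ∀ h, v ∉ W h := by
    intro h hh
    apply hv
    simp only [Set.mem_iUnion]
    exact ⟨W h, Finset.mem_image_of_mem _ (Finset.mem_univ h), hh⟩
  refine ⟨v, ?_, ?_⟩
  · rintro rfl
    exact hv' 1 (zero_mem _)
  · intro h hh hfix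
    apply hv' h
    simp only [W, if_neg hh, LinearMap.mem_ker, LinearMap.sub_apply, Matrix.toLin'_apply, hfix,
      LinearMap.id_apply, sub_self]

/-- Interpolation with vanishing to second order at the origin. -/
lemma exists_phi (v : D → k) (hv : v ≠ 0) (S : Finset (D → k)) (hS : v ∉ S) :
    ∃ φ ∈ varIdeal D k ^ 2, eval v φ = 1 ∧ ∀ w ∈ S, eval w φ = 0 := by
  classical
  have h1 : ∀ w : D → k, ∃ l : MvPolynomial D k, eval v l = 1 ∧ (w ∈ S → eval w l = 0) := by
    intro w
    by_cases hw : w ∈ S
    · have hne : w ≠ v := fun h => hS (h ▸ hw)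
      obtain ⟨a, ha⟩ := Function.ne_iff.mp hne
      have ha' : v a - w a ≠ 0 := sub_ne_zero.mpr (Ne.symm ha)
      refine ⟨C (v a - w a)⁻¹ * (X a - C (w a)), ?_, fun _ => ?_⟩
      · simp only [map_mul, map_sub, eval_C, eval_X]
        exact inv_mul_cancel₀ ha'
      · simp
    · exact ⟨1, map_one _, fun h => absurd h hw⟩
  choose l hl hl' using h1
  obtain ⟨a, ha⟩ := Function.ne_iff.mp hv
  have ha' : v a ≠ 0 := ha
  refine ⟨(C (v a)⁻¹ * X a) ^ 2 * ∏ w ∈ S, l w, ?_, ?_, ?_⟩
  · refine Ideal.mul_mem_right _ _ (Ideal.pow_mem_pow (Ideal.mul_mem_left _ _ ?_) 2)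
    exact Ideal.subset_span ⟨a, rfl⟩
  · rw [map_mul, map_pow, map_mul, eval_C, eval_X, inv_mul_cancel₀ ha', one_pow, one_mul, map_prod]
    exact Finset.prod_eq_one fun w _ => hl w
  · intro w hw
    rw [map_mul, map_prod, Finset.prod_eq_zero hw (hl' w hw), mul_zero]

lemma exists_vec_phi [Infinite k] [Nonempty D] {H : Type*} [Group H] [Finite H]
    (R : H →* Matrix D D k) (hR : Function.Injective R) :
    ∃ (v : D → k) (φ : MvPolynomial D k), φ ∈ varIdeal D k ^ 2 ∧ eval v φ = 1 ∧
      ∀ h, h ≠ 1 → eval ((R h).mulVec v) φ = 0 := by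
  classical
  have := Fintype.ofFinite H
  obtain ⟨v, hv, hv'⟩ := exists_vec R hR
  obtain ⟨φ, h1, h2, h3⟩ := exists_phi v hv
    ((Finset.univ.erase (1 : H)).image fun h => (R h).mulVec v) (by
      intro h
      obtain ⟨g, hg, hg'⟩ := Finset.mem_image.mp h
      exact hv' g (Finset.ne_of_mem_erase hg) hg')
  exact ⟨v, φ, h1, h2, fun h hh => h3 _ (Finset.mem_image_of_mem _
    (Finset.mem_erase.mpr ⟨hh, Finset.mem_univ h⟩))⟩

/-- The input attached to faithful matrix representations. -/
noncomputable def mkInput [Infinite k] [Nonempty D] {G ι : Type*} [Group G] [Finite G]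
    (H : ι → Subgroup G) (R : ∀ i, H i →* Matrix D D k) (hR : ∀ i, Function.Injective (R i)) :
    Input k G ι D where
  H := H
  R := R
  vec i := (exists_vec_phi (R i) (hR i)).choose
  phi i := (exists_vec_phi (R i) (hR i)).choose_spec.choose
  phi_mem i := (exists_vec_phi (R i) (hR i)).choose_spec.choose_spec.1
  phi_one i := (exists_vec_phi (R i) (hR i)).choose_spec.choose_spec.2.1
  phi_zero i := (exists_vec_phi (R i) (hR i)).choose_spec.choose_spec.2.2

end

end Pool.Agent.IsoRep
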