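import Mathlib
import Pool.Agent.IsoRep.Assemble
import Pool.Agent.IsoRep.MkInput

/-!
# The construction for matrix representations over the complex numbers
-/

set_option autoImplicit false
set_option linter.unusedSectionVars false

namespace Pool.Agent.IsoRep

open MvPolynomial Cardinal

/-- Over a countable subfield of `ℂ` there are arbitrarily large finite algebraically independent
families. -/
lemma exists_algebraicIndependent (k : Subfield ℂ) (hk : #k ≤ ℵ₀) (J : Type*) [Finite J] :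
    ∃ c : J → ℂ, AlgebraicIndependent k c := by
  obtain ⟨s, hs⟩ := exists_isTranscendenceBasis k ℂ
  have h1 := IsAlgClosed.cardinal_le_max_transcendence_basis' _ hs
  have h2 : Infinite s := by
    by_contra hfin
    rw [not_infinite_iff_finite] at hfin
    have h3 : #s ≤ ℵ₀ := Cardinal.mk_le_aleph0
    have h4 : #ℂ ≤ ℵ₀ := h1.trans (max_le (max_le hk h3) le_rfl)
    rw [Cardinal.mk_complex] at h4
    exact absurd h4 (not_le.mpr Cardinal.aleph0_lt_continuum)
  obtain ⟨n, ⟨e⟩⟩ := Finite.exists_equiv_fin J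
  let f : Fin n → s := fun j => Infinite.natEmbedding s j
  have hf : Function.Injective f := (Infinite.natEmbedding s).injective.comp Fin.val_injective
  refine ⟨fun j => ((f (e j) : s) : ℂ), ?_⟩
  exact hs.1.comp (fun j => f (e j)) (hf.comp e.injective)

/-- The representation on column vectors attached to a matrix representation. -/
noncomputable def matRep {H D K : Type*} [Group H] [Fintype D] [DecidableEq D] [Field K]
    (R : H →* Matrix D D K) : Representation K H (D → K) :=
  (Matrix.toLinAlgEquiv' : Matrix D D K ≃ₐ[K] _).toAlgHom.toMonoidHom.comp R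

lemma matRep_apply {H D K : Type*} [Group H] [Fintype D] [DecidableEq D] [Field K]
    (R : H →* Matrix D D K) (h : H) (v : D → K) : matRep R h v = (R h).mulVec v := rfl

universe u v w

/-- The construction over a countable subfield. -/
theorem main_subfield {G : Type u} {ι : Type v} {D : Type w} [Group G] [Finite G] [Finite ι]
    [DecidableEq ι] (i₀ : ι) [Fintype D] [DecidableEq D] (k : Subfield ℂ) (hk : #k ≤ ℵ₀)
    (I : Input k G ι D) :
    ∃ (B : Type (max u v w)) (_ : CommRing B) (_ : Algebra ℂ B) (φ : G →* (B ≃ₐ[ℂ] B))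
      (y : ι → (B →ₐ[ℂ] ℂ)),
      IsDomain B ∧ Algebra.FiniteType ℂ B ∧ ringKrullDim B = Nat.card D ∧ Function.Injective y ∧
      (∀ i (h : I.H i) f, y i (φ h f) = y i f) ∧
      ∀ i, ∃ e : (D → ℂ) ≃ₗ[ℂ] tangentSpace (y i), ∀ (h : I.H i) v f,
        (e (I.rho ℂ i h v) : B →ₗ[ℂ] ℂ) f = (e v : B →ₗ[ℂ] ℂ) (φ (h : G)⁻¹ f) := by
  classical
  have fG := Fintype.ofFinite G
  have fι := Fintype.ofFinite ι
  have fH : ∀ i, Fintype (I.H i) := fun i => Fintype.ofFinite _
  have fL : Fintype I.Lam := Fintype.ofFinite _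
  obtain ⟨c, hc⟩ := exists_algebraicIndependent k hk (Eqs ι I.Lam D)
  obtain ⟨B, φ, y, h1, h2, h3, h4, h5⟩ := I.main i₀ c hc
  exact ⟨B, inferInstance, inferInstance, φ, y, inferInstance, h1, h2, h3, h4, h5⟩

/-- The construction for a nonempty index set. -/
theorem main_matrix {G : Type u} {ι : Type v} {D : Type w} [Group G] [Finite G] [Finite ι]
    (i₀ : ι) [Fintype D] [DecidableEq D] [Nonempty D] (H : ι → Subgroup G)
    (R : ∀ i, H i →* Matrix D D ℂ) (hR : ∀ i, Function.Injective (R i)) :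
    ∃ (B : Type (max u v w)) (_ : CommRing B) (_ : Algebra ℂ B) (φ : G →* (B ≃ₐ[ℂ] B))
      (y : ι → (B →ₐ[ℂ] ℂ)),
      IsDomain B ∧ Algebra.FiniteType ℂ B ∧ ringKrullDim B = Nat.card D ∧ Function.Injective y ∧
      (∀ i (h : H i) f, y i (φ h f) = y i f) ∧
      ∀ i, ∃ e : (D → ℂ) ≃ₗ[ℂ] tangentSpace (y i), ∀ (h : H i) v f,
        (e (matRep (R i) h v) : B →ₗ[ℂ] ℂ) f = (e v : B →ₗ[ℂ] ℂ) (φ (h : G)⁻¹ f) := by
  classical
  let E : (Σ i, H i × D × D) → ℂ := fun p => R p.1 p.2.1 p.2.2.1 p.2.2.2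
  obtain ⟨k, hkE, hk⟩ : ∃ k : Subfield ℂ, (∀ p, E p ∈ k) ∧ #k ≤ ℵ₀ :=
    ⟨Subfield.closure (Set.range E), fun p => Subfield.subset_closure ⟨p, rfl⟩,
      (Subfield.cardinalMk_closure_le_max _).trans (max_le Cardinal.mk_le_aleph0 le_rfl)⟩
  have hE : ∀ i (h : H i) a b, R i h a b ∈ k := fun i h a b => hkE ⟨i, h, a, b⟩
  obtain ⟨R', hR'map⟩ : ∃ R' : ∀ i, H i →* Matrix D D k,
      ∀ i h, (R' i h).map (algebraMap k ℂ) = R i h := by
    refine ⟨fun i =>
    { toFun := fun h => Matrix.of fun a b => (⟨R i h a b, hE i h a b⟩ : k)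
      map_one' := by
        ext a b
        change R i 1 a b = (((1 : Matrix D D k) a b : k) : ℂ)
        rw [map_one, Matrix.one_apply, Matrix.one_apply]
        split_ifs <;> rfl
      map_mul' := by
        intro h h'
        ext a b
        change R i (h * h') a b
          = ((∑ c, (⟨R i h a c, hE i h a c⟩ : k) * ⟨R i h' c b, hE i h' c b⟩ : k) : ℂ)
        rw [map_mul, Matrix.mul_apply]
        push_cast
        rfl }, fun i h => rfl⟩
  have hR'inj : ∀ i, Function.Injective (R' i) := by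
    intro i h h' hh
    apply hR i
    rw [← hR'map, ← hR'map, hh]
  obtain ⟨B, _, _, φ, y, h0, h1, h2, h3, h4, h5⟩ := main_subfield i₀ k hk (mkInput H R' hR'inj)
  refine ⟨B, inferInstance, inferInstance, φ, y, h0, h1, h2, h3, h4, ?_⟩
  intro i
  obtain ⟨e, he⟩ := h5 i
  refine ⟨e, fun h v f => ?_⟩
  have h6 : matRep (R i) h v = (mkInput H R' hR'inj).rho ℂ i h v := by
    rw [Input.rho_apply, matRep_apply]
    change (R i h).mulVec v = ((R' i h).map (algebraMap k ℂ)).mulVec v
    rw [hR'map]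
  rw [h6]
  exact he h v f

end Pool.Agent.IsoRep
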