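import Mathlib
import Pool.Agent.IsoRep.Descent
import Pool.Agent.IsoRep.Defs

/-!
# The construction for abstract representations over the complex numbers
-/

set_option autoImplicit false
set_option linter.unusedSectionVars false

namespace Pool.Agent.IsoRep

universe u v w

/-- The matrix representation in a basis. -/
noncomputable def basisRep {H : Type*} [Group H] {V : Type*} [AddCommGroup V] [Module ℂ V]
    {D : Type*} [Fintype D] [DecidableEq D] (b : Module.Basis D ℂ V) (ρ : Representation ℂ H V) :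
    H →* Matrix D D ℂ :=
  (LinearMap.toMatrixAlgEquiv b).toAlgHom.toMonoidHom.comp ρ

lemma basisRep_injective {H : Type*} [Group H] {V : Type*} [AddCommGroup V] [Module ℂ V]
    {D : Type*} [Fintype D] [DecidableEq D] (b : Module.Basis D ℂ V) (ρ : Representation ℂ H V)
    (hρ : Function.Injective ρ) : Function.Injective (basisRep b ρ) :=
  (LinearMap.toMatrixAlgEquiv b).injective.comp hρ

lemma basisRep_equivFun {H : Type*} [Group H] {V : Type*} [AddCommGroup V] [Module ℂ V]
    {D : Type*} [Fintype D] [DecidableEq D] (b : Module.Basis D ℂ V) (ρ : Representation ℂ H V)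
    (h : H) (v : V) : b.equivFun (ρ h v) = matRep (basisRep b ρ) h (b.equivFun v) := by
  rw [matRep_apply]
  change (b.repr (ρ h v) : D → ℂ) = (LinearMap.toMatrix b b (ρ h)).mulVec (b.repr v)
  rw [LinearMap.toMatrix_mulVec_repr]

theorem main_rep {G : Type u} [Group G] [Finite G] {ι : Type v} [Finite ι] (H : ι → Subgroup G)
    (d : ℕ) (hd : 1 ≤ d) (V : ι → Type w) [∀ i, AddCommGroup (V i)] [∀ i, Module ℂ (V i)]
    (hV : ∀ i, Module.finrank ℂ (V i) = d) (ρ : ∀ i, Representation ℂ (H i) (V i))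
    (hρ : ∀ i, Function.Injective (ρ i)) :
    ∃ (A : Type (max u v)) (_ : CommRing A) (_ : Algebra ℂ A) (φ : G →* (A ≃ₐ[ℂ] A))
      (x : ι → (A →ₐ[ℂ] ℂ)),
      IsDomain A ∧ Algebra.FiniteType ℂ A ∧ ringKrullDim A = d ∧ Function.Injective x ∧
      (∀ i (h : H i) (f : A), x i (φ h f) = x i f) ∧
      ∀ i, ∃ e : V i ≃ₗ[ℂ] tangentSpace (x i), ∀ (h : H i) (v : V i) (f : A),
        (e (ρ i h v) : A →ₗ[ℂ] ℂ) f = (e v : A →ₗ[ℂ] ℂ) (φ (h : G)⁻¹ f) := by
  classical
  have hne : Nonempty (Fin d) := ⟨⟨0, hd⟩⟩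
  have hfin : ∀ i, Module.Finite ℂ (V i) := fun i =>
    Module.finite_of_finrank_pos (by rw [hV i]; exact hd)
  let b : ∀ i, Module.Basis (Fin d) ℂ (V i) := fun i => Module.finBasisOfFinrankEq ℂ (V i) (hV i)
  let H' : Option ι → Subgroup G := fun o => o.elim ⊥ H
  let R' : ∀ o, H' o →* Matrix (Fin d) (Fin d) ℂ := fun o =>
    match o with
    | none => 1
    | some i => basisRep (b i) (ρ i)
  have hR' : ∀ o, Function.Injective (R' o) := by
    rintro (_ | i)
    · intro g g' _
      have hsub : Subsingleton ((⊥ : Subgroup G)) := inferInstance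
      exact hsub.elim g g'
    · exact basisRep_injective (b i) (ρ i) (hρ i)
  obtain ⟨B, _, _, φ, y, h0, h1, h2, h3, h4, h5⟩ := main_matrix (none : Option ι) H' R' hR'
  refine ⟨B, inferInstance, inferInstance, φ, fun i => y (some i), h0, h1, ?_, ?_, ?_, ?_⟩
  · rw [h2]; simp
  · intro i j hij
    exact Option.some_injective _ (h3 hij)
  · intro i h f
    exact h4 (some i) h f
  · intro i
    obtain ⟨e, he⟩ := h5 (some i)
    refine ⟨(b i).equivFun.trans e, fun h v f => ?_⟩
    have h6 := he h ((b i).equivFun v) f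
    rw [LinearEquiv.trans_apply, LinearEquiv.trans_apply, basisRep_equivFun]
    exact h6

theorem main_realises {G : Type u} [Group G] [Finite G] {ι : Type v} [Finite ι]
    (H : ι → Subgroup G)
    (d : ℕ) (hd : 1 ≤ d) (V : ι → Type w) [∀ i, AddCommGroup (V i)] [∀ i, Module ℂ (V i)]
    (hV : ∀ i, Module.finrank ℂ (V i) = d) (ρ : ∀ i, Representation ℂ (H i) (V i))
    (hρ : ∀ i, Function.Injective (ρ i)) :
    ∃ (A : Type (max u v)) (_ : CommRing A) (_ : Algebra ℂ A) (φ : G →* (A ≃ₐ[ℂ] A))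
      (x : ι → (A →ₐ[ℂ] ℂ)), Geom.Realises H d ρ φ x := by
  obtain ⟨A, _, _, φ, x, h0, h1, h2, h3, h4, h5⟩ := main_rep H d hd V hV ρ hρ
  refine ⟨A, inferInstance, inferInstance, φ, x, h0, h1, h2, h3,
    fun i => ⟨h4 i, ?_⟩⟩
  obtain ⟨e, he⟩ := h5 i
  refine ⟨Representation.Equiv.mk (e.trans (LinearEquiv.refl ℂ (Geom.tangentSpace (x i)))) ?_⟩
  refine fun h => LinearMap.ext fun v => Subtype.ext (LinearMap.ext fun f => ?_)
  exact he h v f

end Pool.Agent.IsoRep
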